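import Pool.Agent.Q183.CF.ZeroOne

/-!
Cubic (and longer) averages of the time maps of a flow: final statements (MP_9721b5_an).
-/

set_option autoImplicit false

namespace Pool.Agent.Q183.CF

open MeasureTheory Filter Finset Topology
open scoped ENNReal
open Pool.Agent.Y957.MC (IsFlow Bes bes_conv orb_prod_meas cont_of_disc)
open Pool.Agent.W761.Tail (A A_bound term Cvg Cvg_closed Cvg_congr)

universe u

variable {X : Type u} [MeasurableSpace X] {μ : Measure X} {τ : ℝ → X → X} {m : ℕ}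

theorem term_A (T : X → X) (f : Fin m → X → ℂ) (x : X) (N : ℕ) :
    A (fun n => term T f n x) N =
      (1 / (N : ℂ)) * ∑ n ∈ Icc 1 N, ∏ j : Fin m, f j (T^[((j : ℕ) + 1) * n] x) :=
  A_Icc (fun n => ∏ j : Fin m, f j (T^[((j : ℕ) + 1) * n] x)) N

theorem exists_pos {P : ℝ → Prop} (h : ∀ᵐ a : ℝ, P a) : ∃ a : ℝ, 0 < a ∧ P a := by
  by_contra hne
  push Not at hne
  have h2 : (volume : Measure ℝ) (Set.Ioi 0) ≠ 0 := by simp
  apply h2
  exact measure_mono_null (fun a ha => hne a ha) (ae_iff.mp h)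

/-- the continuous averages do not depend on the version of the functions -/
theorem ccvg_congr (hτ : IsFlow μ τ) [IsProbabilityMeasure μ] {f g : Fin m → X → ℂ} (hf : ∀ j, MemLp (f j) ∞ μ)
    (hg : ∀ j, MemLp (g j) ∞ μ) (hfg : ∀ j, f j =ᵐ[μ] g j) (h : CCvg μ τ f) : CCvg μ τ g := by
  obtain ⟨a, ha0, ha1, ha2⟩ := exists_pos ((disc_iff hτ hf).and (disc_iff hτ hg))
  have h1 : Cvg μ (τ a) f := by
    filter_upwards [ha1 ha0, h] with x hx1 hx2
    obtain ⟨L, hL⟩ := hx2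
    exact ⟨L, (hx1 L).2 hL⟩
  have h2 : Cvg μ (τ a) g := Cvg_congr (hτ.mp a) hfg h1
  filter_upwards [ha2 ha0, h2] with x hx1 hx2
  obtain ⟨L, hL⟩ := hx2
  exact ⟨L, (hx1 L).1 hL⟩

theorem zero_one (hτ : IsFlow μ τ) [IsProbabilityMeasure μ] [IsSeparable μ] :
    ((∀ᵐ a : ℝ, 0 < a → ∀ f : Fin m → X → ℂ, (∀ j, MemLp (f j) ∞ μ) → Cvg μ (τ a) f) ∧
      ∀ f : Fin m → X → ℂ, (∀ j, MemLp (f j) ∞ μ) → CCvg μ τ f) ∨
    ((∀ a : ℝ, 0 < a → ¬ ∀ f : Fin m → X → ℂ, (∀ j, MemLp (f j) ∞ μ) → Cvg μ (τ a) f) ∧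
      ¬ ∀ f : Fin m → X → ℂ, (∀ j, MemLp (f j) ∞ μ) → CCvg μ τ f) := by
  by_cases h : CCvgAll m μ τ
  · refine Or.inl ⟨?_, fun f hf => ?_⟩
    · filter_upwards [cvgAll_of_ccvgAll hτ h] with a ha ha0 f hf
      choose g hg hfg using fun j => bme_of_memLp (hf j)
      exact Cvg_congr (hτ.mp a) (fun j => (hfg j).symm) (ha ha0 g hg)
    · choose g hg hfg using fun j => bme_of_memLp (hf j)
      exact ccvg_congr hτ (fun j => (hg j).memLp) hf (fun j => (hfg j).symm) (h g hg)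
  · refine Or.inr ⟨fun a ha0 hc => ?_, fun hc => ?_⟩
    · exact h (ccvgAll_of_one hτ ha0 fun f hf => hc f fun j => (hf j).memLp)
    · exact h fun f hf => hc f fun j => (hf j).memLp

end Pool.Agent.Q183.CF
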