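import Pool.Agent.Y957.MC.Fin7

/-!
Cubic averages of the time `a` maps of a flow (MP_9721b5_an): scaled flows, iterates.
-/

set_option autoImplicit false

namespace Pool.Agent.Q183.CF

open MeasureTheory Filter Finset
open Pool.Agent.Y957.MC (IsFlow Bes bes_conv)

universe u

variable {X : Type u} [MeasurableSpace X] {μ : Measure X} {τ : ℝ → X → X}

/-- a flow with another speed -/
theorem scale (hτ : IsFlow μ τ) (c : ℝ) : IsFlow μ (fun t => τ (c * t)) where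
  meas := hτ.meas.comp ((measurable_fst.const_mul c).prodMk measurable_snd)
  zero x := by simp only [mul_zero]; exact hτ.zero x
  add s t x := by simp only [mul_add]; exact hτ.add _ _ x
  mp t := hτ.mp _

/-- iterates of the time `a` map -/
theorem iter (hτ : IsFlow μ τ) (a : ℝ) (n : ℕ) (x : X) : (τ a)^[n] x = τ (a * n) x := by
  induction n with
  | zero => simp [hτ.zero]
  | succ n ih =>
    rw [Function.iterate_succ_apply', ih, ← hτ.add]
    congr 1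
    push_cast
    ring

/-- several speeds, Besicovitch weights -/
theorem speeds [IsProbabilityMeasure μ] (hτ : IsFlow μ τ) {m : ℕ} (c : Fin m → ℝ) {f : Fin m → X → ℂ}
    (hf : ∀ j, AEStronglyMeasurable (f j) μ) (hfb : ∀ j, ∃ C : ℝ, ∀ᵐ x ∂μ, ‖f j x‖ ≤ C) {B : ℕ → ℂ} {b : ℂ}
    (hB : Bes B) (hmean : Tendsto (fun N : ℕ => (1 / (N : ℂ)) * ∑ n ∈ Icc 1 N, B n) atTop (nhds b)) :
    ∀ᵐ a : ℝ, 0 < a → ∀ᵐ x ∂μ,
      Tendsto (fun N : ℕ => (1 / (N : ℂ)) * ∑ n ∈ Icc 1 N, B n * ∏ j, f j (τ (c j * (a * n)) x) -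
        b * ((1 / ((a * N : ℝ) : ℂ)) * ∫ v in (0 : ℝ)..(a * N), ∏ j, f j (τ (c j * v) x))) atTop (nhds 0) ∧
      (b ≠ 0 → ∀ L : ℂ,
        (Tendsto (fun N : ℕ => (1 / (N : ℂ)) * ∑ n ∈ Icc 1 N, B n * ∏ j, f j (τ (c j * (a * n)) x)) atTop
          (nhds (b * L)) ↔
        Tendsto (fun V : ℝ => (1 / (V : ℂ)) * ∫ v in (0 : ℝ)..V, ∏ j, f j (τ (c j * v) x)) atTop (nhds L))) :=
  bes_conv hB hmean (τ := fun j t => τ (c j * t)) (fun j => scale hτ (c j)) hf hfb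

/-- the constant weight -/
theorem bes_one : Bes fun _ => 1 := by
  intro ε hε
  refine ⟨{0}, fun _ => 1, Eventually.of_forall fun N => ?_⟩
  simp only [Finset.sum_singleton, mul_zero, zero_mul, Complex.ofReal_zero, Complex.exp_zero, mul_one, sub_self,
    norm_zero, Finset.sum_const_zero]
  exact hε.le

theorem mean_one : Tendsto (fun N : ℕ => (1 / (N : ℂ)) * ∑ _n ∈ Icc 1 N, (1 : ℂ)) atTop (nhds 1) := by
  refine tendsto_const_nhds.congr' ?_
  filter_upwards [eventually_gt_atTop 0] with N hN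
  have h : (N : ℂ) ≠ 0 := Nat.cast_ne_zero.2 hN.ne'
  simp [h]

/-- cubic averages -/
theorem cubic [IsProbabilityMeasure μ] (hτ : IsFlow μ τ) {f g h : X → ℂ}
    (hf : AEStronglyMeasurable f μ) (hg : AEStronglyMeasurable g μ) (hh : AEStronglyMeasurable h μ)
    (hfb : ∃ C : ℝ, ∀ᵐ x ∂μ, ‖f x‖ ≤ C) (hgb : ∃ C : ℝ, ∀ᵐ x ∂μ, ‖g x‖ ≤ C) (hhb : ∃ C : ℝ, ∀ᵐ x ∂μ, ‖h x‖ ≤ C) :
    ∀ᵐ a : ℝ, 0 < a → ∀ᵐ x ∂μ, ∀ L : ℂ,
      (Tendsto (fun N : ℕ => (1 / (N : ℂ)) * ∑ n ∈ Icc 1 N,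
        f ((τ a)^[n] x) * g ((τ a)^[2 * n] x) * h ((τ a)^[3 * n] x)) atTop (nhds L) ↔
      Tendsto (fun V : ℝ => (1 / (V : ℂ)) * ∫ v in (0 : ℝ)..V, f (τ v x) * g (τ (2 * v) x) * h (τ (3 * v) x))
        atTop (nhds L)) := by
  have h1 := speeds hτ ![1, 2, 3] (f := ![f, g, h]) (by
    intro j; fin_cases j
    · exact hf
    · exact hg
    · exact hh) (by
    intro j; fin_cases j
    · exact hfb
    · exact hgb
    · exact hhb) bes_one mean_one
  filter_upwards [h1] with a ha ha0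
  filter_upwards [ha ha0] with x hx L
  have h2 := hx.2 one_ne_zero L
  rw [one_mul] at h2
  have e4 : ∀ v : ℝ, ∏ j, (![f, g, h] : Fin 3 → X → ℂ) j (τ ((![1, 2, 3] : Fin 3 → ℝ) j * v) x) =
      f (τ v x) * g (τ (2 * v) x) * h (τ (3 * v) x) := by
    intro v
    rw [Fin.prod_univ_three]
    simp only [Matrix.cons_val_zero, Matrix.cons_val_one, Matrix.cons_val, one_mul]
  simp only [e4, one_mul] at h2
  simp only [iter hτ, Nat.cast_mul, Nat.cast_ofNat, mul_left_comm a (2 : ℝ), mul_left_comm a (3 : ℝ)]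
  exact h2

end Pool.Agent.Q183.CF
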