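import Pool.Agent.Y957.VK.Step3
import Pool.Agent.Y957.MC.Fin6

/-!
Averages of a bounded sequence and its averages along `⌊a n^θ⌋`, for almost every `a`: equivalence.
-/

set_option autoImplicit false

namespace Pool.Agent.Q183.CF

open Finset MeasureTheory Filter Topology
open Pool.Agent.Y957.MC (Mod S_DETG detg_all Adm S_REGC cont_of_disc)
open Pool.Agent.Y957.St

/-- from averages along the dilated powers to the averages -/
theorem conv_avg {θ : ℝ} (hθ : 0 < θ) {a : ℝ} (ha : 0 < a) (b : ℕ → ℂ) (hb : ∀ n, ‖b n‖ ≤ 1) (L : ℂ)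
    (hL : Tendsto (fun N : ℕ => (1 / (N : ℂ)) * ∫ v in (0 : ℝ)..N, sf b (a * v ^ θ)) atTop (𝓝 L)) :
    Tendsto (fun M : ℕ => (1 / (M : ℂ)) * ∑ m ∈ Finset.range M, b m) atTop (𝓝 L) := by
  have hpm : Measurable fun x : ℝ => x ^ θ := measurable_id.pow_const θ
  have hpc : Continuous fun x : ℝ => x ^ θ := Real.continuous_rpow_const hθ.le
  have hθ' : 0 < θ⁻¹ := inv_pos.2 hθ
  have hpm' : Measurable fun x : ℝ => x ^ θ⁻¹ := measurable_id.pow_const θ⁻¹
  obtain ⟨K, hK, hreg⟩ := Pool.Agent.Y274.MC.regc _ (Pool.Agent.Y571.MC.pow θ hθ) hpm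
  obtain ⟨K', hK', hreg'⟩ := Pool.Agent.Y274.MC.regc _ (Pool.Agent.Y571.MC.pow θ⁻¹ hθ') hpm'
  -- the function along the powers
  set G : ℝ → ℂ := fun v => sf b (a * v ^ θ) with hG
  have hGm : Measurable G := (sf_meas b).comp (hpm.const_mul a)
  have hGb : ∀ v, ‖G v‖ ≤ 1 := fun v => hb _
  have hGi : ∀ V W : ℝ, IntervalIntegrable G volume V W := fun V W => by
    rw [intervalIntegrable_iff]
    exact Measure.integrableOn_of_bounded (M := 1) (by simp) hGm.aestronglyMeasurable (ae_of_all _ fun r => hGb r)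
  have hGR : Tendsto (fun V : ℝ => (1 / (V : ℂ)) * ∫ v in (0 : ℝ)..V, G v) atTop (𝓝 L) := by
    refine cont_of_disc (a := 1) one_pos zero_le_one (ae_of_all _ hGb) hGi ?_
    simp only [one_mul, Complex.ofReal_natCast]
    exact hL
  rw [Metric.tendsto_atTop] at hGR ⊢
  intro ε hε
  obtain ⟨Q, hQ⟩ : ∃ Q : ℝ, Q = 20 + K' * (5 + 32 * K) := ⟨_, rfl⟩
  have hQ0 : 20 ≤ Q := by rw [hQ]; nlinarith [mul_pos hK' hK]
  obtain ⟨h, hh⟩ : ∃ h : ℝ, h = min (1 / 4) (ε / (2 * Q)) := ⟨_, rfl⟩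
  have hh0 : 0 < h := by rw [hh]; exact lt_min (by norm_num) (div_pos hε (by linarith))
  have hh4 : h ≤ 1 / 4 := by rw [hh]; exact min_le_left _ _
  have hhQ : Q * h ≤ ε / 2 := by
    have h1 : h ≤ ε / (2 * Q) := by rw [hh]; exact min_le_right _ _
    rw [le_div_iff₀ (by linarith)] at h1
    linarith
  have hlm : Continuous (lo b h) := lo_cont hb h
  have hBi : ∀ x y, IntervalIntegrable (Bh h) volume x y := fun x y => (Bh_cont h).intervalIntegrable x y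
  -- bumps along the powers
  have hBc : Continuous fun v : ℝ => Bh h (a * v ^ θ) := (Bh_cont h).comp (continuous_const.mul hpc)
  have hBci : ∀ x y, IntervalIntegrable (fun v : ℝ => Bh h (a * v ^ θ)) volume x y := fun x y =>
    hBc.intervalIntegrable x y
  have h3 : ∀ᶠ V : ℝ in atTop, ‖(1 / (V : ℂ)) * (∫ v in (0 : ℝ)..V, (Bh h v : ℂ)) - 0‖ ≤ 8 * h := by
    filter_upwards [eventually_ge_atTop (1 : ℝ)] with V hV1
    have hVp : 0 < V := by linarith
    have h4 := Bh_avg hh0 hh4 V hV1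
    rw [sub_zero, intervalIntegral.integral_ofReal]
    have e : (1 / (V : ℂ)) * ((∫ v in (0 : ℝ)..V, Bh h v : ℝ) : ℂ) =
        (((1 / V) * ∫ v in (0 : ℝ)..V, Bh h v : ℝ) : ℂ) := by push_cast; ring
    rw [e, Complex.norm_real, Real.norm_eq_abs, abs_of_nonneg]
    · exact h4
    · exact mul_nonneg (by positivity) (intervalIntegral.integral_nonneg hVp.le fun v _ => Bh_nonneg h v)
  have h4 := hreg a ha (fun v => (Bh h v : ℂ)) (Complex.continuous_ofReal.comp (Bh_cont h))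
    (fun v => by
      rw [Complex.norm_real, Real.norm_eq_abs, abs_of_nonneg (Bh_nonneg h v)]
      exact Bh_le h v) 0 (8 * h) (by positivity) h3 h hh0
  have h4' : ∀ᶠ N : ℕ in atTop, (1 / (N : ℝ)) * ∫ v in (0 : ℝ)..N, Bh h (a * v ^ θ) ≤ h + K * (8 * h) := by
    filter_upwards [h4] with N h6
    rw [sub_zero, intervalIntegral.integral_ofReal] at h6
    have e : (1 / (N : ℂ)) * ((∫ v in (0 : ℝ)..N, Bh h (a * v ^ θ) : ℝ) : ℂ) =
        (((1 / (N : ℝ)) * ∫ v in (0 : ℝ)..N, Bh h (a * v ^ θ) : ℝ) : ℂ) := by push_cast; ring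
    rw [e, Complex.norm_real, Real.norm_eq_abs] at h6
    exact (le_abs_self _).trans h6
  obtain ⟨N1, hN1⟩ := eventually_atTop.1 h4'
  obtain ⟨V0, hV0⟩ := hGR h hh0
  -- local means along the powers
  have hlc : Continuous fun v : ℝ => lo b h (a * v ^ θ) := hlm.comp (continuous_const.mul hpc)
  have h5 : ∀ᶠ V : ℝ in atTop, ‖(1 / (V : ℂ)) * (∫ v in (0 : ℝ)..V, lo b h (a * v ^ θ)) - L‖ ≤
      h + 4 * (h + K * (8 * h)) := by
    filter_upwards [eventually_ge_atTop V0, eventually_ge_atTop (N1 : ℝ), eventually_ge_atTop (1 : ℝ)]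
      with V hV hVN hV1
    have hVp : 0 < V := by linarith
    have e1 : (1 / (V : ℂ)) * (∫ v in (0 : ℝ)..V, lo b h (a * v ^ θ)) - L =
        ((1 / (V : ℂ)) * (∫ v in (0 : ℝ)..V, G v) - L) +
          ((1 / V : ℝ) : ℂ) * ∫ v in (0 : ℝ)..V, (lo b h (a * v ^ θ) - G v) := by
      rw [intervalIntegral.integral_sub (hlc.intervalIntegrable _ _) (hGi _ _)]
      push_cast
      ring
    rw [e1]
    have h6 := hV0 V hV
    rw [dist_eq_norm] at h6
    have h7 : ‖∫ v in (0 : ℝ)..V, (lo b h (a * v ^ θ) - G v)‖ ≤ ∫ v in (0 : ℝ)..V, 2 * Bh h (a * v ^ θ) :=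
      intervalIntegral.norm_integral_le_of_norm_le hVp.le (ae_of_all _ fun v _ => lo_near hb hh0 hh4 _)
        ((hBci _ _).const_mul 2)
    rw [intervalIntegral.integral_const_mul] at h7
    have h8 : ∫ v in (0 : ℝ)..V, Bh h (a * v ^ θ) ≤ (2 * V) * (h + K * (8 * h)) := by
      have h9 : ∫ v in (0 : ℝ)..V, Bh h (a * v ^ θ) ≤ ∫ v in (0 : ℝ)..(⌈V⌉₊ : ℝ), Bh h (a * v ^ θ) := by
        have e := intervalIntegral.integral_add_adjacent_intervals (hBci 0 V) (hBci V (⌈V⌉₊ : ℝ))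
        have : 0 ≤ ∫ v in V..(⌈V⌉₊ : ℝ), Bh h (a * v ^ θ) :=
          intervalIntegral.integral_nonneg (Nat.le_ceil V) fun t _ => Bh_nonneg h _
        linarith
      have h10 : N1 ≤ ⌈V⌉₊ := by exact_mod_cast hVN.trans (Nat.le_ceil V)
      have h11 := hN1 _ h10
      have h12 : (0 : ℝ) < (⌈V⌉₊ : ℝ) := lt_of_lt_of_le hVp (Nat.le_ceil V)
      have h13 : (⌈V⌉₊ : ℝ) ≤ 2 * V := by
        have := Nat.ceil_lt_add_one hVp.le
        linarith
      rw [one_div, inv_mul_le_iff₀ h12] at h11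
      have h14 : 0 ≤ h + K * (8 * h) := by positivity
      calc _ ≤ _ := h9
        _ ≤ (⌈V⌉₊ : ℝ) * (h + K * (8 * h)) := h11
        _ ≤ _ := mul_le_mul_of_nonneg_right h13 h14
    have h9 : ‖((1 / V : ℝ) : ℂ) * ∫ v in (0 : ℝ)..V, (lo b h (a * v ^ θ) - G v)‖ ≤ 4 * (h + K * (8 * h)) := by
      rw [norm_mul, Complex.norm_real, Real.norm_eq_abs, abs_of_pos (by positivity)]
      calc 1 / V * ‖∫ v in (0 : ℝ)..V, (lo b h (a * v ^ θ) - G v)‖
          ≤ 1 / V * (2 * ((2 * V) * (h + K * (8 * h)))) := by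
            gcongr
            linarith
        _ = 4 * (h + K * (8 * h)) := by field_simp; ring
    linarith [norm_add_le ((1 / (V : ℂ)) * (∫ v in (0 : ℝ)..V, G v) - L)
      (((1 / V : ℝ) : ℂ) * ∫ v in (0 : ℝ)..V, (lo b h (a * v ^ θ) - G v))]
  -- back to the sequence
  obtain ⟨a', ha'⟩ : ∃ a' : ℝ, a' = a ^ (-θ⁻¹) := ⟨_, rfl⟩
  have ha'0 : 0 < a' := by rw [ha']; exact Real.rpow_pos_of_pos ha _
  have hback : ∀ v : ℝ, 0 ≤ v → a * (a' * v ^ θ⁻¹) ^ θ = v := by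
    intro v hv
    rw [Real.mul_rpow ha'0.le (Real.rpow_nonneg hv _), ← Real.rpow_mul hv, inv_mul_cancel₀ hθ.ne', Real.rpow_one,
      ha', ← Real.rpow_mul ha.le, neg_mul, inv_mul_cancel₀ hθ.ne', Real.rpow_neg_one]
    field_simp
  have h6 := hreg' a' ha'0 (fun v => lo b h (a * v ^ θ)) hlc (fun v => lo_norm hb hh0 _) L
    (h + 4 * (h + K * (8 * h))) (by positivity) h5 h hh0
  obtain ⟨N0, hN0⟩ := eventually_atTop.1 h6
  refine ⟨max N0 1, fun N hN => ?_⟩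
  have h7 := hN0 N ((le_max_left _ _).trans hN)
  have hN1 : (1 : ℝ) ≤ N := by exact_mod_cast (le_max_right _ _).trans hN
  have hNp : (0 : ℝ) < N := by linarith
  have e1 : ∫ v in (0 : ℝ)..N, lo b h (a * (a' * v ^ θ⁻¹) ^ θ) = ∫ v in (0 : ℝ)..N, lo b h v := by
    apply intervalIntegral.integral_congr
    intro v hv
    rw [Set.uIcc_of_le hNp.le] at hv
    simp only
    rw [hback v hv.1]
  rw [e1] at h7
  have h8 : ‖∫ v in (0 : ℝ)..N, (lo b h v - sf b v)‖ ≤ ∫ v in (0 : ℝ)..N, 2 * Bh h v :=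
    intervalIntegral.norm_integral_le_of_norm_le hNp.le (ae_of_all _ fun v _ => lo_near hb hh0 hh4 v)
      ((hBi _ _).const_mul 2)
  rw [intervalIntegral.integral_const_mul] at h8
  have h9 := Bh_avg hh0 hh4 N hN1
  have h10 : ‖((1 / (N : ℝ) : ℝ) : ℂ) * ∫ v in (0 : ℝ)..N, (lo b h v - sf b v)‖ ≤ 16 * h := by
    rw [norm_mul, Complex.norm_real, Real.norm_eq_abs, abs_of_pos (by positivity)]
    calc 1 / (N : ℝ) * ‖∫ v in (0 : ℝ)..N, (lo b h v - sf b v)‖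
        ≤ 1 / (N : ℝ) * (2 * ∫ v in (0 : ℝ)..N, Bh h v) := by gcongr
      _ = 2 * ((1 / (N : ℝ)) * ∫ v in (0 : ℝ)..N, Bh h v) := by ring
      _ ≤ 2 * (8 * h) := by linarith
      _ = 16 * h := by ring
  rw [dist_eq_norm, ← sf_int b hb N]
  have e2 : (1 / (N : ℂ)) * (∫ t in (0 : ℝ)..(N : ℝ), sf b t) - L =
      ((1 / (N : ℂ)) * (∫ v in (0 : ℝ)..N, lo b h v) - L) -
        ((1 / (N : ℝ) : ℝ) : ℂ) * ∫ v in (0 : ℝ)..N, (lo b h v - sf b v) := by
    rw [intervalIntegral.integral_sub (hlm.intervalIntegrable _ _) (sf_ii b hb _ _)]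
    push_cast
    ring
  rw [e2]
  have h11 := norm_sub_le ((1 / (N : ℂ)) * (∫ v in (0 : ℝ)..N, lo b h v) - L)
    (((1 / (N : ℝ) : ℝ) : ℂ) * ∫ v in (0 : ℝ)..N, (lo b h v - sf b v))
  have h12 : h + K' * (h + 4 * (h + K * (8 * h))) + 16 * h ≤ Q * h := by
    rw [hQ]
    nlinarith
  linarith

end Pool.Agent.Q183.CF
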