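import Pool.Agent.Q183.CF.Samp
import Pool.Agent.Y957.VK.Fin3
import Pool.Agent.Y957.VK.Fin2a

/-!
Averages of a bounded sequence and its averages along `⌊a n^θ⌋`, `n` all integers or primes.
-/

set_option autoImplicit false

namespace Pool.Agent.Q183.CF

open Finset MeasureTheory Filter Topology
open Pool.Agent.Y957.MC (Mod S_DETG detg_all Adm S_REGC cont_of_disc)
open Pool.Agent.Y957.St
open Pool.Agent.Y957.VK (wall_all lw_all pr_all lamw seq2_all neg_mu mu_le)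
open Pool.Agent.Y957.AD (PolyVar)

theorem range_avg (b : ℕ → ℂ) (hb : ∀ n, ‖b n‖ ≤ 1) (L : ℂ)
    (h : Tendsto (fun N : ℕ => (1 / (N : ℂ)) * ∑ n ∈ range N, b n) atTop (𝓝 L)) :
    Tendsto (fun N : ℕ => (1 / (N : ℂ)) * ∑ n ∈ Icc 1 N, b n) atTop (𝓝 L) := by
  have h1 : Tendsto (fun N : ℕ => (1 / (N : ℂ)) * (b N - b 0)) atTop (𝓝 0) := by
    rw [tendsto_zero_iff_norm_tendsto_zero]
    have h2 : Tendsto (fun N : ℕ => (2 : ℝ) / N) atTop (𝓝 0) := tendsto_const_div_atTop_nhds_zero_nat 2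
    refine squeeze_zero (fun _ => norm_nonneg _) (fun N => ?_) h2
    rw [norm_mul, norm_div, norm_one, Complex.norm_natCast]
    have h3 : ‖b N - b 0‖ ≤ 2 := (norm_sub_le _ _).trans (by linarith [hb 0, hb N])
    calc 1 / (N : ℝ) * ‖b N - b 0‖ ≤ 1 / (N : ℝ) * 2 := by gcongr
      _ = 2 / N := by ring
  have h2 := h.add h1
  rw [add_zero] at h2
  refine h2.congr fun N => ?_
  have e : ∑ n ∈ range N, b n + (b N - b 0) = ∑ n ∈ Icc 1 N, b n := by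
    rw [← sum_shift b N]
    have := Finset.sum_range_succ' b N
    rw [Finset.sum_range_succ] at this
    linear_combination this
  rw [← e]
  ring

theorem ae_one {P : ℝ → Prop}
    (h : ∀ᵐ α ∂((volume : Measure (Fin 1 → ℝ)).restrict {α | ∀ i, 0 < α i}), P (α 0)) :
    ∀ᵐ a : ℝ, 0 < a → P a := by
  have hm : MeasurableSet {α : Fin 1 → ℝ | ∀ i, 0 < α i} := by
    have : {α : Fin 1 → ℝ | ∀ i, 0 < α i} = ⋂ i, {α | 0 < α i} := by ext; simp
    rw [this]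
    exact MeasurableSet.iInter fun i => measurableSet_lt measurable_const (measurable_pi_apply i)
  rw [ae_restrict_iff' hm] at h
  have h1 := ((volume_preserving_funUnique (Fin 1) ℝ).symm _).quasiMeasurePreserving.ae h
  filter_upwards [h1] with a ha ha0
  exact ha fun _ => ha0

/-- the statement about one sequence -/
def Equiv4 (θ : ℝ) (b : ℕ → ℂ) (a : ℝ) : Prop :=
  (∀ L : ℂ, (Tendsto (fun N : ℕ => (1 / (N : ℂ)) * ∑ n ∈ Icc 1 N, b n) atTop (𝓝 L) ↔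
    Tendsto (fun N : ℕ => (1 / (N : ℂ)) * ∑ n ∈ Icc 1 N, b ⌊a * (n : ℝ) ^ θ⌋₊) atTop (𝓝 L))) ∧
  Tendsto (fun N : ℕ => (1 / (Nat.primeCounting N : ℂ)) * ∑ p ∈ (Icc 1 N).filter Nat.Prime, b ⌊a * (p : ℝ) ^ θ⌋₊ -
    (1 / (N : ℂ)) * ∑ n ∈ Icc 1 N, b ⌊a * (n : ℝ) ^ θ⌋₊) atTop (𝓝 0) ∧
  ∀ K : ℕ, Tendsto (fun N : ℕ => (Real.log N) ^ K / N *
    ‖∑ n ∈ Icc 1 N, ((ArithmeticFunction.moebius n : ℤ) : ℂ) * b ⌊a * (n : ℝ) ^ θ⌋₊‖) atTop (𝓝 0)

theorem equiv4_one {θ : ℝ} (hθ : 0 < θ) (b : ℕ → ℂ) (hb : ∀ n, ‖b n‖ ≤ 1) :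
    ∀ᵐ a : ℝ, 0 < a → Equiv4 θ b a := by
  have hA := Pool.Agent.Y571.MC.pow θ hθ
  have hm : Measurable fun x : ℝ => x ^ θ := measurable_id.pow_const θ
  have h1 := detg_all _ hA hm (sf b) (sf_meas b) (fun v => hb _) (fun Λ hΛ => sf_mod b hb Λ hΛ)
  rw [ae_restrict_iff' measurableSet_Ioi] at h1
  have hPV : PolyVar (sf b) := by
    have h1 := Pool.Agent.Y950.AD.polyVar_step (fun x => ⌊x⌋) (fun x y hxy => Int.floor_le_floor hxy)
      1 1 one_pos (fun X hX => by simpa using Int.floor_le X) (fun n => b n.toNat)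
      (fun n => hb n.toNat)
    exact h1
  have h2 := ae_one (P := fun a => ∀ K : ℕ, Tendsto (fun N : ℕ => (Real.log N) ^ K / N *
      ‖∑ n ∈ Icc 1 N, lamw n * sf b (a * (n : ℝ) ^ θ)‖) atTop (𝓝 0)) (by
    have h := wall_all lamw lw_all.1 lw_all.2.2 1 (fun _ => sf b) (fun _ x => hb _) (fun _ => sf_meas b)
      (fun _ => hPV) (fun _ => θ) (fun _ => hθ)
    simpa only [Fin.prod_univ_one] using h)
  have h3 := ae_one (P := fun a => ∀ K : ℕ, Tendsto (fun N : ℕ => (Real.log N) ^ K / N *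
      ‖∑ n ∈ Icc 1 N, ((ArithmeticFunction.moebius n : ℤ) : ℂ) * b ⌊a * (n : ℝ) ^ θ⌋₊‖) atTop (𝓝 0)) (by
    have h := seq2_all _ mu_le neg_mu 1 (fun _ => b) 1 (fun _ n => hb n) (fun _ => θ) (fun _ => hθ)
    simpa only [Fin.prod_univ_one] using h)
  filter_upwards [h1, h2, h3] with a ha1 ha2 ha3 ha0
  refine ⟨fun L => ⟨fun hL => ?_, fun hL => ?_⟩, ?_, ha3 ha0⟩
  · have h4 := (ha1 ha0).add (cont_avg _ hA hm b hb L (avg_range b hb L hL) a ha0)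
    rw [zero_add] at h4
    refine h4.congr fun N => ?_
    simp only [sf]
    ring
  · have h4 := hL.sub (ha1 ha0)
    rw [sub_zero] at h4
    refine range_avg b hb L (conv_avg hθ ha0 b hb L (h4.congr fun N => ?_))
    simp only [sf]
    ring
  · refine pr_all (fun n => b ⌊a * (n : ℝ) ^ θ⌋₊) 1 (fun n => hb _) ?_
    have h4 := ha2 ha0 0
    rw [tendsto_zero_iff_norm_tendsto_zero]
    refine h4.congr fun N => ?_
    rw [pow_zero, norm_mul, norm_div, norm_one, Complex.norm_natCast]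
    rfl

theorem smul_tendsto {D : ℂ} (hD : D ≠ 0) {u : ℕ → ℂ} {L : ℂ} :
    Tendsto (fun N => D⁻¹ * u N) atTop (𝓝 (D⁻¹ * L)) ↔ Tendsto u atTop (𝓝 L) := by
  refine ⟨fun h => ?_, fun h => h.const_mul _⟩
  have h1 := h.const_mul D
  simpa only [mul_inv_cancel_left₀ hD] using h1

theorem equiv4_bdd {θ : ℝ} (hθ : 0 < θ) (b : ℕ → ℂ) {C : ℝ} (hb : ∀ n, ‖b n‖ ≤ C) :
    ∀ᵐ a : ℝ, 0 < a → Equiv4 θ b a := by
  set B : ℝ := |C| + 1 with hB
  have hB0 : 0 < B := by positivity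
  have hBc : (B : ℂ) ≠ 0 := by exact_mod_cast hB0.ne'
  have h := equiv4_one hθ (fun n => (B : ℂ)⁻¹ * b n) fun n => by
    rw [norm_mul, norm_inv, Complex.norm_real, Real.norm_eq_abs, abs_of_pos hB0, inv_mul_le_iff₀ hB0]
    linarith [hb n, le_abs_self C]
  filter_upwards [h] with a ha ha0
  obtain ⟨h1, h2, h3⟩ := ha ha0
  refine ⟨fun L => ?_, ?_, fun K => ?_⟩
  · have h4 := h1 ((B : ℂ)⁻¹ * L)
    rw [← smul_tendsto hBc (u := fun N : ℕ => (1 / (N : ℂ)) * ∑ n ∈ Icc 1 N, b n),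
      ← smul_tendsto hBc (u := fun N : ℕ => (1 / (N : ℂ)) * ∑ n ∈ Icc 1 N, b ⌊a * (n : ℝ) ^ θ⌋₊)]
    simp only [← Finset.mul_sum, mul_left_comm _ ((B : ℂ)⁻¹)] at h4
    exact h4
  · rw [← smul_tendsto hBc, mul_zero]
    refine h2.congr fun N => ?_
    rw [← Finset.mul_sum, ← Finset.mul_sum]
    ring
  · have h4 := (h3 K).const_mul B
    rw [mul_zero] at h4
    refine h4.congr fun N => ?_
    have e : ∑ n ∈ Icc 1 N, ((ArithmeticFunction.moebius n : ℤ) : ℂ) * ((B : ℂ)⁻¹ * b ⌊a * (n : ℝ) ^ θ⌋₊) =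
        (B : ℂ)⁻¹ * ∑ n ∈ Icc 1 N, ((ArithmeticFunction.moebius n : ℤ) : ℂ) * b ⌊a * (n : ℝ) ^ θ⌋₊ := by
      rw [Finset.mul_sum]
      exact Finset.sum_congr rfl fun n _ => by ring
    rw [e, norm_mul, norm_inv, Complex.norm_real, Real.norm_eq_abs, abs_of_pos hB0]
    field_simp

end Pool.Agent.Q183.CF
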