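import Pool.Agent.Q183.CF.Zero

/-!
Cubic (and longer) averages of the time maps of a flow: the zero-one law (MP_9721b5_an).
-/

set_option autoImplicit false

namespace Pool.Agent.Q183.CF

open MeasureTheory Filter Finset Topology
open scoped ENNReal
open Pool.Agent.Y957.MC (IsFlow Bes bes_conv orb_prod_meas cont_of_disc)
open Pool.Agent.W761.Tail (A A_bound term Cvg Cvg_closed Cvg_congr)

universe u

variable {X : Type u} [MeasurableSpace X] {μ : Measure X} {τ : ℝ → X → X} {m : ℕ}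

theorem bdd_of_memLp {f : X → ℂ} (hf : MemLp f ∞ μ) : ∃ C : ℝ, ∀ᵐ x ∂μ, ‖f x‖ ≤ C := by
  refine ⟨(eLpNorm f ∞ μ).toReal, ?_⟩
  have h1 : ∀ᵐ x ∂μ, ‖f x‖ₑ ≤ eLpNormEssSup f μ := ae_le_eLpNormEssSup
  filter_upwards [h1] with x hx
  have h2 : eLpNorm f ∞ μ ≠ ∞ := hf.2.ne
  rw [eLpNorm_exponent_top] at h2 ⊢
  have h3 := ENNReal.toReal_mono h2 hx
  simpa using h3

/-- discrete and continuous averages at almost every time -/
theorem disc_iff (hτ : IsFlow μ τ) [IsProbabilityMeasure μ] {f : Fin m → X → ℂ} (hf : ∀ j, MemLp (f j) ∞ μ) :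
    ∀ᵐ a : ℝ, 0 < a → ∀ᵐ x ∂μ, ∀ L : ℂ,
      (Tendsto (A fun n => term (τ a) f n x) atTop (𝓝 L) ↔
        Tendsto (fun V : ℝ => (1 / (V : ℂ)) * ∫ v in (0 : ℝ)..V, orb τ f x v) atTop (𝓝 L)) := by
  have h1 := speeds hτ (fun j : Fin m => ((j : ℕ) + 1 : ℝ)) (f := f) (fun j => (hf j).1)
    (fun j => bdd_of_memLp (hf j)) bes_one mean_one
  filter_upwards [h1] with a ha ha0
  filter_upwards [ha ha0] with x hx L
  have h2 := hx.2 one_ne_zero L
  rw [one_mul] at h2
  have e : (A fun n => term (τ a) f n x) = fun N : ℕ => (1 / (N : ℂ)) * ∑ n ∈ Icc 1 N,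
      (1 : ℂ) * ∏ j, f j (τ (((j : ℕ) + 1 : ℝ) * (a * n)) x) := by
    funext N
    have h3 := A_Icc (fun n => orb τ f x (a * n)) N
    have e1 : (fun n => term (τ a) f n x) = fun n : ℕ => (fun n : ℕ => orb τ f x (a * n)) (n + 1) := by
      funext n
      exact term_eq hτ a f n x
    rw [e1, h3]
    simp only [one_mul]
    rfl
  rw [e]
  exact h2

/-- measurable and bounded -/
def BMe (f : X → ℂ) : Prop := Measurable f ∧ ∃ C : ℝ, ∀ x, ‖f x‖ ≤ C

theorem BMe.memLp [IsProbabilityMeasure μ] {f : X → ℂ} (hf : BMe f) : MemLp f ∞ μ := by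
  obtain ⟨hm, C, hC⟩ := hf
  exact memLp_top_of_bound hm.aestronglyMeasurable C (ae_of_all _ hC)

theorem bme_of_memLp {f : X → ℂ} (hf : MemLp f ∞ μ) : ∃ g : X → ℂ, BMe g ∧ f =ᵐ[μ] g := by
  obtain ⟨C, hC⟩ := bdd_of_memLp hf
  obtain ⟨g, hg, hfg⟩ := hf.1
  refine ⟨fun x => if ‖g x‖ ≤ C then g x else 0, ⟨?_, |C|, fun x => ?_⟩, ?_⟩
  · exact Measurable.ite (measurableSet_le hg.measurable.norm measurable_const) hg.measurable measurable_const
  · simp only
    split_ifs with h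
    · exact h.trans (le_abs_self _)
    · simp
  · filter_upwards [hC, hfg] with x h1 h2
    rw [h2] at h1 ⊢
    rw [if_pos h1]

/-- radial projection -/
noncomputable def rad (C : ℝ) (z : ℂ) : ℂ := if ‖z‖ ≤ C then z else ((C / ‖z‖ : ℝ) : ℂ) * z

theorem rad_norm {C : ℝ} (hC : 0 ≤ C) (z : ℂ) : ‖rad C z‖ ≤ C := by
  rw [rad]
  split_ifs with h
  · exact h
  · rw [not_le] at h
    have h0 : 0 < ‖z‖ := lt_of_le_of_lt hC h
    rw [norm_mul, Complex.norm_real, Real.norm_of_nonneg (by positivity),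
      div_mul_cancel₀ _ h0.ne']

theorem rad_dist {C : ℝ} (hC : 0 ≤ C) {u : ℂ} (hu : ‖u‖ ≤ C) (z : ℂ) :
    ‖u - rad C z‖ ≤ 2 * ‖u - z‖ := by
  rw [rad]
  split_ifs with h
  · have := norm_nonneg (u - z)
    linarith
  · rw [not_le] at h
    have h0 : 0 < ‖z‖ := lt_of_le_of_lt hC h
    have e1 : u - ((C / ‖z‖ : ℝ) : ℂ) * z = (u - z) + ((1 - C / ‖z‖ : ℝ) : ℂ) * z := by
      push_cast
      ring
    rw [e1]
    refine (norm_add_le _ _).trans ?_
    have e2 : ‖((1 - C / ‖z‖ : ℝ) : ℂ) * z‖ = ‖z‖ - C := by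
      have h1 : 0 ≤ 1 - C / ‖z‖ := by
        rw [sub_nonneg, div_le_one h0]
        exact h.le
      rw [norm_mul, Complex.norm_real, Real.norm_of_nonneg h1]
      field_simp
    rw [e2]
    have h2 : ‖z‖ ≤ ‖u - z‖ + ‖u‖ := by
      have := norm_sub_norm_le z u
      rw [norm_sub_rev] at this
      linarith
    linarith

theorem rad_meas (C : ℝ) : Measurable (rad C) := by
  unfold rad
  refine Measurable.ite (measurableSet_le measurable_norm measurable_const) measurable_id ?_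
  exact (Complex.measurable_ofReal.comp (measurable_const.div measurable_norm)).mul measurable_id

/-- all bounded functions -/
def CvgAll (m : ℕ) (μ : Measure X) (T : X → X) : Prop :=
  ∀ f : Fin m → X → ℂ, (∀ j, BMe (f j)) → Cvg μ T f

/-- from a countable dense family to all functions -/
theorem all_of_dense [IsProbabilityMeasure μ] {T : X → X} (hT : MeasurePreserving T μ μ) (D : Set (Lp ℂ 1 μ))
    (hD : Dense D) (h : ∀ (C : ℕ) (d : Fin m → D), Cvg μ T (fun j x => rad C ((d j : Lp ℂ 1 μ) x))) :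
    CvgAll m μ T := by
  intro f hf
  choose hfm CF hCF using hf
  obtain ⟨C, hC⟩ : ∃ C : ℕ, ∀ j x, ‖f j x‖ ≤ C := by
    obtain ⟨C, hC⟩ := exists_nat_ge (∑ l, |CF l|)
    exact ⟨C, fun j x => ((hCF j x).trans (le_abs_self _)).trans
      ((Finset.single_le_sum (f := fun l => |CF l|) (fun _ _ => abs_nonneg _) (Finset.mem_univ j)).trans hC)⟩
  refine Cvg_closed hT (C := C) hfm hC fun ε hε => ?_
  have hint : ∀ j, Integrable (f j) μ := fun j =>
    Integrable.of_bound (hfm j).aestronglyMeasurable C (ae_of_all _ (hC j))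
  have h1 : ∀ j, ∃ d : D, ∫ x, ‖f j x - (d : Lp ℂ 1 μ) x‖ ∂μ ≤ ε / 2 := by
    intro j
    obtain ⟨d, hd, hd2⟩ := Metric.mem_closure_iff.1 (hD ((hint j).toL1 (f j))) (ε / 2) (by positivity)
    refine ⟨⟨d, hd⟩, ?_⟩
    rw [dist_eq_norm, L1.norm_eq_integral_norm] at hd2
    refine le_trans (le_of_eq ?_) hd2.le
    apply integral_congr_ae
    filter_upwards [Lp.coeFn_sub ((hint j).toL1 (f j)) d, (hint j).coeFn_toL1] with x hx1 hx2
    rw [hx1, Pi.sub_apply, hx2]
  choose d hd using h1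
  refine ⟨0, fun j x => rad C ((d j : Lp ℂ 1 μ) x), fun j => ?_, fun j x => rad_norm (Nat.cast_nonneg C) _,
    fun j => ?_, h C d⟩
  · exact (rad_meas C).comp (Lp.stronglyMeasurable _).measurable
  · simp only [Function.iterate_zero, id_eq]
    have hdi : Integrable (fun x => f j x - (d j : Lp ℂ 1 μ) x) μ := (hint j).sub (L1.integrable_coeFn _)
    calc ∫ x, ‖f j x - rad C ((d j : Lp ℂ 1 μ) x)‖ ∂μ ≤ ∫ x, 2 * ‖f j x - (d j : Lp ℂ 1 μ) x‖ ∂μ := by
          refine integral_mono_of_nonneg (ae_of_all _ fun x => norm_nonneg _) (hdi.norm.const_mul 2)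
            (ae_of_all _ fun x => ?_)
          exact rad_dist (Nat.cast_nonneg C) (hC j x) _
      _ = 2 * ∫ x, ‖f j x - (d j : Lp ℂ 1 μ) x‖ ∂μ := integral_const_mul _ _
      _ ≤ ε := by linarith [hd j]

/-- all bounded functions, continuous averages -/
def CCvgAll (m : ℕ) (μ : Measure X) (τ : ℝ → X → X) : Prop :=
  ∀ f : Fin m → X → ℂ, (∀ j, BMe (f j)) → CCvg μ τ f

theorem ccvgAll_of_one (hτ : IsFlow μ τ) [IsProbabilityMeasure μ] {t : ℝ} (ht : 0 < t)
    (h : CvgAll m μ (τ t)) : CCvgAll m μ τ := by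
  intro f hf
  have hf' := hf
  choose hfm CF hCF using hf'
  refine ccvg_of_one hτ ht (C := ∑ l, |CF l|) hfm (fun j x => ?_) fun s => ?_
  · exact ((hCF j x).trans (le_abs_self _)).trans
      (Finset.single_le_sum (f := fun l => |CF l|) (fun _ _ => abs_nonneg _) (Finset.mem_univ j))
  · exact h _ fun j => ⟨(hfm j).comp (hτ.mp _).measurable, CF j, fun x => hCF j _⟩

/-- the continuous averages and almost all times -/
theorem cvgAll_of_ccvgAll (hτ : IsFlow μ τ) [IsProbabilityMeasure μ] [IsSeparable μ]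
    (h : CCvgAll m μ τ) : ∀ᵐ a : ℝ, 0 < a → CvgAll m μ (τ a) := by
  have : Fact ((1 : ℝ≥0∞) ≠ ∞) := ⟨ENNReal.one_ne_top⟩
  obtain ⟨D, hDc, hD⟩ := TopologicalSpace.exists_countable_dense (Lp ℂ 1 μ)
  have : Countable D := hDc.to_subtype
  have h1 : ∀ᵐ a : ℝ, ∀ p : ℕ × (Fin m → D), 0 < a →
      Cvg μ (τ a) (fun j x => rad p.1 ((p.2 j : Lp ℂ 1 μ) x)) := by
    rw [ae_all_iff]
    rintro ⟨C, d⟩
    have hb : ∀ j, BMe (fun x => rad C ((d j : Lp ℂ 1 μ) x)) := fun j =>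
      ⟨(rad_meas C).comp (Lp.stronglyMeasurable _).measurable, C, fun x => rad_norm (Nat.cast_nonneg C) _⟩
    filter_upwards [disc_iff hτ (f := fun j x => rad C ((d j : Lp ℂ 1 μ) x)) fun j => (hb j).memLp] with a ha ha0
    filter_upwards [ha ha0, h _ hb] with x hx1 hx2
    obtain ⟨L, hL⟩ := hx2
    exact ⟨L, (hx1 L).2 hL⟩
  filter_upwards [h1] with a ha ha0
  exact all_of_dense (hτ.mp a) D hD fun C d => ha (C, d) ha0

end Pool.Agent.Q183.CF
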