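import Pool.Agent.Q183.CF.Samp2
import Pool.Agent.Q183.CF.ZeroOne

/-!
Averages at the times `⌊a n^θ⌋`: almost every point (MP_9721b5_an).
-/

set_option autoImplicit false

namespace Pool.Agent.Q183.CF

open Finset MeasureTheory Filter Topology
open scoped ENNReal

universe u

/-- a form of `Equiv4` whose set is visibly measurable -/
theorem equiv4_iff {θ : ℝ} {b : ℕ → ℂ} {a : ℝ} : Equiv4 θ b a ↔
    (((∃ L : ℂ, Tendsto (fun N : ℕ => (1 / (N : ℂ)) * ∑ n ∈ Icc 1 N, b n) atTop (𝓝 L)) ∧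
      Tendsto (fun N : ℕ => (1 / (N : ℂ)) * ∑ n ∈ Icc 1 N, b n -
        (1 / (N : ℂ)) * ∑ n ∈ Icc 1 N, b ⌊a * (n : ℝ) ^ θ⌋₊) atTop (𝓝 0)) ∨
      ((¬ ∃ L : ℂ, Tendsto (fun N : ℕ => (1 / (N : ℂ)) * ∑ n ∈ Icc 1 N, b n) atTop (𝓝 L)) ∧
        ¬ ∃ L : ℂ, Tendsto (fun N : ℕ => (1 / (N : ℂ)) * ∑ n ∈ Icc 1 N, b ⌊a * (n : ℝ) ^ θ⌋₊) atTop (𝓝 L))) ∧
    Tendsto (fun N : ℕ => (1 / (Nat.primeCounting N : ℂ)) * ∑ p ∈ (Icc 1 N).filter Nat.Prime, b ⌊a * (p : ℝ) ^ θ⌋₊ -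
      (1 / (N : ℂ)) * ∑ n ∈ Icc 1 N, b ⌊a * (n : ℝ) ^ θ⌋₊) atTop (𝓝 0) ∧
    ∀ K : ℕ, Tendsto (fun N : ℕ => (Real.log N) ^ K / N *
      ‖∑ n ∈ Icc 1 N, ((ArithmeticFunction.moebius n : ℤ) : ℂ) * b ⌊a * (n : ℝ) ^ θ⌋₊‖) atTop (𝓝 0) := by
  unfold Equiv4
  refine and_congr ⟨fun h => ?_, fun h L => ?_⟩ Iff.rfl
  · by_cases hc : ∃ L : ℂ, Tendsto (fun N : ℕ => (1 / (N : ℂ)) * ∑ n ∈ Icc 1 N, b n) atTop (𝓝 L)
    · left
      refine ⟨hc, ?_⟩
      obtain ⟨L, hL⟩ := hc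
      have := hL.sub ((h L).1 hL)
      rwa [sub_self] at this
    · right
      exact ⟨hc, fun ⟨L, hL⟩ => hc ⟨L, (h L).2 hL⟩⟩
  · rcases h with ⟨-, h2⟩ | ⟨h1, h2⟩
    · refine ⟨fun h3 => ?_, fun h3 => ?_⟩
      · have := h3.sub h2
        rw [sub_zero] at this
        refine this.congr fun N => ?_
        ring
      · have := h2.add h3
        rw [zero_add] at this
        refine this.congr fun N => ?_
        ring
    · exact ⟨fun h3 => absurd ⟨L, h3⟩ h1, fun h3 => absurd ⟨L, h3⟩ h2⟩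

/-- measurable families of bounded sequences -/
theorem fam {Ω : Type u} [MeasurableSpace Ω] (μ : Measure Ω) [SFinite μ] (b : ℕ → Ω → ℂ)
    (hbm : ∀ n, Measurable (b n)) {C : ℝ} (hb : ∀ n ω, ‖b n ω‖ ≤ C) {θ : ℝ} (hθ : 0 < θ) :
    ∀ᵐ a : ℝ, 0 < a → ∀ᵐ ω ∂μ, Equiv4 θ (fun n => b n ω) a := by
  have h1 : ∀ᵐ ω ∂μ, ∀ᵐ a : ℝ ∂(volume.restrict (Set.Ioi (0 : ℝ))), Equiv4 θ (fun n => b n ω) a := by
    refine ae_of_all _ fun ω => ?_
    rw [ae_restrict_iff' measurableSet_Ioi]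
    exact equiv4_bdd hθ (fun n => b n ω) fun n => hb n ω
  have hjm : Measurable fun q : Ω × ℕ => b q.2 q.1 := measurable_from_prod_countable_left fun k => hbm k
  have hs : ∀ t : ℕ, Measurable fun p : ℝ × Ω => b ⌊p.1 * (t : ℝ) ^ θ⌋₊ p.2 := fun t =>
    hjm.comp (measurable_snd.prodMk (Nat.measurable_floor.comp (measurable_fst.mul_const _)))
  have hA : ∀ N : ℕ, Measurable fun p : ℝ × Ω => (1 / (N : ℂ)) * ∑ n ∈ Icc 1 N, b n p.2 := fun N =>
    (Finset.measurable_fun_sum _ fun n _ => (hbm n).comp measurable_snd).const_mul _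
  have hS : ∀ N : ℕ, Measurable fun p : ℝ × Ω => (1 / (N : ℂ)) * ∑ n ∈ Icc 1 N, b ⌊p.1 * (n : ℝ) ^ θ⌋₊ p.2 := fun N =>
    (Finset.measurable_fun_sum _ fun n _ => hs n).const_mul _
  have hset : MeasurableSet {p : ℝ × Ω | Equiv4 θ (fun n => b n p.2) p.1} := by
    simp only [equiv4_iff]
    refine MeasurableSet.inter (MeasurableSet.union (MeasurableSet.inter ?_ ?_)
      (MeasurableSet.inter (MeasurableSet.compl ?_) (MeasurableSet.compl ?_))) (MeasurableSet.inter ?_ ?_)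
    · exact measurableSet_exists_tendsto hA
    · exact measurableSet_tendsto (𝓝 (0 : ℂ)) fun N => (hA N).sub (hS N)
    · exact measurableSet_exists_tendsto hA
    · exact measurableSet_exists_tendsto hS
    · refine measurableSet_tendsto (𝓝 (0 : ℂ)) fun N => Measurable.sub ?_ (hS N)
      exact (Finset.measurable_fun_sum _ fun n _ => hs n).const_mul _
    · have e : {p : ℝ × Ω | ∀ K : ℕ, Tendsto (fun N : ℕ => (Real.log N) ^ K / N *
          ‖∑ n ∈ Icc 1 N, ((ArithmeticFunction.moebius n : ℤ) : ℂ) * b ⌊p.1 * (n : ℝ) ^ θ⌋₊ p.2‖) atTop (𝓝 0)} =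
          ⋂ K : ℕ, {p : ℝ × Ω | Tendsto (fun N : ℕ => (Real.log N) ^ K / N *
          ‖∑ n ∈ Icc 1 N, ((ArithmeticFunction.moebius n : ℤ) : ℂ) * b ⌊p.1 * (n : ℝ) ^ θ⌋₊ p.2‖) atTop (𝓝 0)} := by
        ext p
        simp
      refine MeasurableSet.congr ?_ e.symm
      refine MeasurableSet.iInter fun K => measurableSet_tendsto (𝓝 (0 : ℝ)) fun N => ?_
      exact (Finset.measurable_fun_sum _ fun n _ => (hs n).const_mul _).norm.const_mul _
  have h2 := (Measure.ae_ae_comm (μ := volume.restrict (Set.Ioi (0 : ℝ))) (ν := μ)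
    (p := fun a ω => Equiv4 θ (fun n => b n ω) a) hset).2 h1
  rw [ae_restrict_iff' measurableSet_Ioi] at h2
  exact h2

variable {X : Type u} [MeasurableSpace X] {μ : Measure X} {m : ℕ}

/-- multiple averages of an arbitrary map -/
theorem samp_map [IsProbabilityMeasure μ] {T : X → X} (hT : MeasurePreserving T μ μ) {f : Fin m → X → ℂ}
    (hf : ∀ j, MemLp (f j) ∞ μ) {θ : ℝ} (hθ : 0 < θ) :
    ∀ᵐ a : ℝ, 0 < a → ∀ᵐ x ∂μ, Equiv4 θ (fun n => ∏ j : Fin m, f j (T^[((j : ℕ) + 1) * n] x)) a := by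
  choose g hg hfg using fun j => bme_of_memLp (hf j)
  have hg' := hg
  choose hgm CG hCG using hg'
  have hC : ∀ j x, ‖g j x‖ ≤ ∑ l, |CG l| := fun j x => ((hCG j x).trans (le_abs_self _)).trans
    (Finset.single_le_sum (f := fun l => |CG l|) (fun _ _ => abs_nonneg _) (Finset.mem_univ j))
  have h1 := fam μ (fun n x => ∏ j : Fin m, g j (T^[((j : ℕ) + 1) * n] x))
    (fun n => Finset.measurable_fun_prod _ fun j _ => (hgm j).comp (hT.measurable.iterate _))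
    (C := (∑ l, |CG l|) ^ m) (fun n x => by
      rw [norm_prod]
      refine (Finset.prod_le_prod (fun _ _ => norm_nonneg _) fun j _ => hC j _).trans ?_
      rw [Finset.prod_const, Finset.card_univ, Fintype.card_fin]) hθ
  have h2 : ∀ᵐ x ∂μ, ∀ n : ℕ, ∀ j, f j (T^[((j : ℕ) + 1) * n] x) = g j (T^[((j : ℕ) + 1) * n] x) := by
    rw [ae_all_iff]
    intro n
    rw [ae_all_iff]
    intro j
    exact (hT.iterate _).quasiMeasurePreserving.ae (hfg j)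
  filter_upwards [h1] with a ha ha0
  filter_upwards [ha ha0, h2] with x hx1 hx2
  have e : (fun n => ∏ j : Fin m, f j (T^[((j : ℕ) + 1) * n] x)) =
      fun n => ∏ j : Fin m, g j (T^[((j : ℕ) + 1) * n] x) :=
    funext fun n => Finset.prod_congr rfl fun j _ => hx2 n j
  rw [e]
  exact hx1

end Pool.Agent.Q183.CF
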