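import Pool.Agent.Q183.CF.Final

/-!
Suspension flows of an invertible map: cubic (and longer) averages of the time maps (MP_9721b5_an).
-/

set_option autoImplicit false

namespace Pool.Agent.Q183.CF

open MeasureTheory Filter Finset Topology
open scoped ENNReal
open Pool.Agent.Y957.MC (IsFlow)
open Pool.Agent.W761.Tail (A A_bound term Cvg Cvg_closed Cvg_congr)

universe u

/-- the circle -/
abbrev 𝕋 : Type := AddCircle (1 : ℝ)

/-- the representative in `[0, 1)` -/
noncomputable def rep (s : 𝕋) : ℝ := AddCircle.equivIco 1 0 s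

theorem rep_nonneg (s : 𝕋) : 0 ≤ rep s := (AddCircle.equivIco 1 0 s).2.1

theorem rep_lt (s : 𝕋) : rep s < 1 :=
  lt_of_lt_of_eq (AddCircle.equivIco 1 0 s).2.2 (zero_add 1)

theorem coe_rep (s : 𝕋) : ((rep s : ℝ) : 𝕋) = s := AddCircle.coe_equivIco

theorem rep_coe (y : ℝ) : rep (y : 𝕋) = Int.fract y := by
  have h := AddCircle.coe_equivIco_mk_apply (p := (1 : ℝ)) y
  rw [div_one, mul_one] at h
  exact h

theorem rep_add (s : 𝕋) (t : ℝ) : rep (s + (t : 𝕋)) = Int.fract (rep s + t) := by
  rw [← rep_coe, AddCircle.coe_add, coe_rep]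

theorem rep_meas : Measurable rep :=
  measurable_subtype_coe.comp (AddCircle.measurableEquivIco 1 0).measurable

theorem floor_rep (s : 𝕋) : ⌊rep s⌋ = 0 := Int.floor_eq_zero_iff.2 ⟨rep_nonneg s, rep_lt s⟩

variable {X : Type u} [MeasurableSpace X] {μ : Measure X} {m : ℕ}

/-- the suspension flow of `T`, on the product of the circle and `X` -/
noncomputable def sus (T : Equiv.Perm X) (t : ℝ) (p : 𝕋 × X) : 𝕋 × X :=
  (p.1 + (t : 𝕋), (T ^ ⌊rep p.1 + t⌋ : Equiv.Perm X) p.2)

theorem zpow_mp {T : Equiv.Perm X} (hT : MeasurePreserving T μ μ) (hTm : Measurable T.symm) (n : ℤ) :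
    MeasurePreserving (T ^ n : Equiv.Perm X) μ μ := by
  have hs : MeasurePreserving T.symm μ μ := by
    refine ⟨hTm, ?_⟩
    have h1 := hT.map_eq
    calc μ.map T.symm = (μ.map T).map T.symm := by rw [h1]
      _ = μ.map (T.symm ∘ T) := Measure.map_map hTm hT.measurable
      _ = μ := by rw [Equiv.symm_comp_self, Measure.map_id]
  obtain ⟨k, rfl | rfl⟩ := n.eq_nat_or_neg
  · rw [zpow_natCast, Equiv.Perm.coe_pow]
    exact hT.iterate k
  · rw [zpow_neg, zpow_natCast, ← inv_pow, Equiv.Perm.coe_pow]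
    exact hs.iterate k

theorem sus_flow [SFinite μ] {T : Equiv.Perm X} (hT : MeasurePreserving T μ μ) (hTm : Measurable T.symm) :
    IsFlow ((volume : Measure 𝕋).prod μ) (sus T) := by
  have hj : Measurable fun q : X × ℤ => (T ^ q.2 : Equiv.Perm X) q.1 :=
    measurable_from_prod_countable_left fun n => (zpow_mp hT hTm n).measurable
  refine ⟨?_, ?_, ?_, ?_⟩
  · unfold sus
    refine Measurable.prodMk ?_ ?_
    · exact (measurable_fst.comp measurable_snd).add (AddCircle.measurable_mk'.comp measurable_fst)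
    · refine hj.comp ((measurable_snd.comp measurable_snd).prodMk (Int.measurable_floor.comp ?_))
      exact (rep_meas.comp (measurable_fst.comp measurable_snd)).add measurable_fst
  · rintro ⟨s, x⟩
    simp only [sus, AddCircle.coe_zero, add_zero, floor_rep, zpow_zero, Equiv.Perm.coe_one, id_eq]
  · rintro t1 t2 ⟨s, x⟩
    simp only [sus]
    refine Prod.ext ?_ ?_
    · simp only [AddCircle.coe_add]
      rw [add_comm (t1 : 𝕋), add_assoc]
    · simp only
      rw [rep_add, ← Equiv.Perm.mul_apply, ← zpow_add]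
      congr 3
      rw [Int.fract]
      have e : rep s + t2 - (⌊rep s + t2⌋ : ℝ) + t1 = rep s + (t1 + t2) - (⌊rep s + t2⌋ : ℝ) := by ring
      rw [e, Int.floor_sub_intCast]
      ring
  · intro t
    refine MeasurePreserving.skew_product (f := fun s : 𝕋 => s + (t : 𝕋))
      (g := fun s x => (T ^ ⌊rep s + t⌋ : Equiv.Perm X) x) (measurePreserving_add_right volume (t : 𝕋)) ?_
      (ae_of_all _ fun s => (zpow_mp hT hTm _).map_eq)
    refine hj.comp (measurable_snd.prodMk (Int.measurable_floor.comp ?_))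
    exact (rep_meas.comp measurable_fst).add_const t

theorem sus_one (T : Equiv.Perm X) (p : 𝕋 × X) : sus T 1 p = (p.1, T p.2) := by
  obtain ⟨s, x⟩ := p
  simp only [sus]
  refine Prod.ext ?_ ?_
  · simp only
    rw [AddCircle.coe_period, add_zero]
  · simp only
    rw [Int.floor_add_one, floor_rep, zero_add, zpow_one]

theorem sus_one_iter (T : Equiv.Perm X) (k : ℕ) (p : 𝕋 × X) : (sus T 1)^[k] p = (p.1, T^[k] p.2) := by
  induction k with
  | zero => rfl
  | succ k ih => rw [Function.iterate_succ_apply', ih, sus_one, Function.iterate_succ_apply']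

instance : IsProbabilityMeasure (volume : Measure 𝕋) := ⟨by simp⟩

/-- the map `T` and the product `id × T` -/
theorem cvg_one [IsProbabilityMeasure μ] {T : Equiv.Perm X} (hT : MeasurePreserving T μ μ)
    (h : CvgAll m μ T) : CvgAll m ((volume : Measure 𝕋).prod μ) (sus T 1) := by
  intro F hF
  have hm : MeasurableSet {p : 𝕋 × X | ∃ L, Tendsto (fun N => A (fun n => term (sus T 1) F n p) N) atTop (𝓝 L)} := by
    apply measurableSet_exists_tendsto
    intro N
    unfold A
    refine Measurable.const_mul (Finset.measurable_fun_sum _ fun n _ => ?_) _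
    unfold term
    refine Finset.measurable_fun_prod _ fun j _ => (hF j).1.comp ?_
    have e : (sus T 1)^[((j : ℕ) + 1) * (n + 1)] = fun p : 𝕋 × X => (p.1, T^[((j : ℕ) + 1) * (n + 1)] p.2) :=
      funext fun p => sus_one_iter T _ p
    rw [e]
    exact measurable_fst.prodMk ((hT.measurable.iterate _).comp measurable_snd)
  refine (Measure.ae_prod_iff_ae_ae hm).2 (ae_of_all _ fun s => ?_)
  have h1 := h (fun j x => F j (s, x)) fun j => by
    obtain ⟨C, hC⟩ := (hF j).2
    exact ⟨(hF j).1.comp measurable_prodMk_left, C, fun x => hC _⟩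
  filter_upwards [h1] with x hx
  obtain ⟨L, hL⟩ := hx
  refine ⟨L, hL.congr fun N => ?_⟩
  congr 1
  funext n
  unfold term
  refine Finset.prod_congr rfl fun j _ => ?_
  rw [sus_one_iter]

theorem shift_avg (b : ℕ → ℂ) {C : ℝ} (hb : ∀ n, ‖b n‖ ≤ C) {L : ℂ}
    (h : Tendsto (fun N : ℕ => (1 / (N : ℂ)) * ∑ n ∈ range N, b n) atTop (𝓝 L)) :
    Tendsto (A fun n => b (n + 1)) atTop (𝓝 L) := by
  have h1 : Tendsto (fun N : ℕ => (1 / (N : ℂ)) * (b N - b 0)) atTop (𝓝 0) := by
    rw [tendsto_zero_iff_norm_tendsto_zero]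
    have h2 : Tendsto (fun N : ℕ => (2 * C : ℝ) / N) atTop (𝓝 0) := tendsto_const_div_atTop_nhds_zero_nat _
    refine squeeze_zero (fun _ => norm_nonneg _) (fun N => ?_) h2
    rw [norm_mul, norm_div, norm_one, Complex.norm_natCast]
    have h3 : ‖b N - b 0‖ ≤ 2 * C := (norm_sub_le _ _).trans (by linarith [hb 0, hb N])
    calc 1 / (N : ℝ) * ‖b N - b 0‖ ≤ 1 / (N : ℝ) * (2 * C) := by gcongr
      _ = 2 * C / N := by ring
  have h2 := h.add h1
  rw [add_zero] at h2
  refine h2.congr fun N => ?_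
  have e : ∑ n ∈ range N, b n + (b N - b 0) = ∑ n ∈ range N, b (n + 1) := by
    have := Finset.sum_range_succ' b N
    rw [Finset.sum_range_succ] at this
    linear_combination this
  rw [← mul_add, e, A, one_div]

theorem orb_ii {Y : Type u} [MeasurableSpace Y] {ν : Measure Y} {τ : ℝ → Y → Y} (hτ : IsFlow ν τ)
    {F : Fin m → Y → ℂ} (hF : ∀ j, BMe (F j)) (y : Y) (V W : ℝ) :
    IntervalIntegrable (fun v => orb τ F y v) volume V W := by
  have hom := orb_meas hτ (fun j => (hF j).1)
  have hFm : Measurable fun v : ℝ => orb τ F y v := hom.comp (measurable_id.prodMk measurable_const)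
  choose hFm' CF hCF using hF
  have hFC : ∀ j p, ‖F j p‖ ≤ ∑ l, |CF l| := fun j p => ((hCF j p).trans (le_abs_self _)).trans
    (Finset.single_le_sum (f := fun l => |CF l|) (fun _ _ => abs_nonneg _) (Finset.mem_univ j))
  rw [intervalIntegrable_iff]
  exact Measure.integrableOn_of_bounded (M := (∑ l, |CF l|) ^ m) (by simp) hFm.aestronglyMeasurable
    (ae_of_all _ fun r => orb_bound (τ := τ) hFC y r)

/-- from the suspension flow back to the map -/
theorem cvg_of_sus [IsProbabilityMeasure μ] {T : Equiv.Perm X} (hT : MeasurePreserving T μ μ)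
    (hTm : Measurable T.symm) (hm : 0 < m)
    (h : CCvgAll m ((volume : Measure 𝕋).prod μ) (sus T)) : CvgAll m μ T := by
  intro f hf
  -- the window
  obtain ⟨ε, hε⟩ : ∃ ε : ℝ, ε = 1 / (2 * m + 2) := ⟨_, rfl⟩
  have hm1 : (1 : ℝ) ≤ m := by exact_mod_cast hm
  have hε0 : 0 < ε := by rw [hε]; positivity
  have hε1 : (2 * (m : ℝ) + 1) * ε < 1 := by
    rw [hε, mul_one_div, div_lt_one (by positivity)]
    linarith
  have hε4 : 2 * ε < 1 := by nlinarith
  let w : 𝕋 → ℂ := fun s => if ε ≤ rep s ∧ rep s < 2 * ε then 1 else 0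
  have hw : Measurable w := Measurable.ite ((measurableSet_le measurable_const rep_meas).inter
    (measurableSet_lt rep_meas measurable_const)) measurable_const measurable_const
  let F : Fin m → 𝕋 × X → ℂ := fun j p => (if (j : ℕ) = 0 then w p.1 else 1) * f j p.2
  have hF : ∀ j, BMe (F j) := by
    intro j
    obtain ⟨C, hC⟩ := (hf j).2
    refine ⟨?_, |C|, fun p => ?_⟩
    · refine Measurable.mul ?_ ((hf j).1.comp measurable_snd)
      by_cases hj : (j : ℕ) = 0
      · simp only [hj, if_true]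
        exact hw.comp measurable_fst
      · simp only [hj, if_false]
        exact measurable_const
    · simp only [F, w]
      rw [norm_mul]
      have h1 : ‖(if (j : ℕ) = 0 then (if ε ≤ rep p.1 ∧ rep p.1 < 2 * ε then (1 : ℂ) else 0) else 1)‖ ≤ 1 := by
        split_ifs <;> simp
      calc _ ≤ 1 * |C| := mul_le_mul h1 ((hC _).trans (le_abs_self _)) (norm_nonneg _) zero_le_one
        _ = |C| := one_mul _
  have h1 := h F hF
  unfold CCvg at h1
  -- a good point of the circle
  have h2 : ∀ᵐ s : 𝕋, ∀ᵐ x ∂μ, ∃ L : ℂ, Tendsto (fun V : ℝ => (1 / (V : ℂ)) *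
      ∫ v in (0 : ℝ)..V, orb (sus T) F (s, x) v) atTop (𝓝 L) := Measure.ae_ae_of_ae_prod h1
  have h3 : ∃ s : 𝕋, rep s < ε ∧ ∀ᵐ x ∂μ, ∃ L : ℂ, Tendsto (fun V : ℝ => (1 / (V : ℂ)) *
      ∫ v in (0 : ℝ)..V, orb (sus T) F (s, x) v) atTop (𝓝 L) := by
    have h4 := (AddCircle.measurePreserving_mk (1 : ℝ) 0).quasiMeasurePreserving.ae h2
    rw [ae_restrict_iff' measurableSet_Ioc] at h4
    by_contra hne'
    have hne : ∀ s : 𝕋, rep s < ε → ¬ ∀ᵐ x ∂μ, ∃ L : ℂ, Tendsto (fun V : ℝ => (1 / (V : ℂ)) *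
        ∫ v in (0 : ℝ)..V, orb (sus T) F (s, x) v) atTop (𝓝 L) := fun s hs h => hne' ⟨s, hs, h⟩
    have h5 : (volume : Measure ℝ) (Set.Ioo 0 ε) ≠ 0 := by
      rw [Real.volume_Ioo, sub_zero]
      exact (ENNReal.ofReal_pos.2 hε0).ne'
    apply h5
    refine measure_mono_null ?_ (ae_iff.mp h4)
    intro y hy
    simp only [Set.mem_ofPred_eq]
    intro h6
    have h7 : rep ((y : ℝ) : 𝕋) < ε := by
      rw [rep_coe, Int.fract_eq_self.2 ⟨hy.1.le, by linarith [hy.2]⟩]
      exact hy.2
    refine hne _ h7 (h6 ⟨hy.1, ?_⟩)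
    linarith [hy.2]
  obtain ⟨s, hs, h4⟩ := h3
  have hs0 := rep_nonneg s
  filter_upwards [h4] with x hx
  obtain ⟨L, hL⟩ := hx
  let b : ℕ → ℂ := fun n => ∏ j : Fin m, f j (T^[((j : ℕ) + 1) * n] x)
  -- the integrand
  have horb : ∀ (n : ℕ) (v : ℝ), (n : ℝ) ≤ v → v < n + 1 →
      orb (sus T) F (s, x) v = if (n + ε - rep s ≤ v ∧ v < n + 2 * ε - rep s) then b n else 0 := by
    intro n v hv0 hv1
    have hrep : ∀ j : Fin m, (sus T (((j : ℕ) + 1 : ℝ) * v) (s, x)).1 = s + ((((j : ℕ) + 1 : ℝ) * v : ℝ) : 𝕋) :=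
      fun j => rfl
    split_ifs with hc
    · -- inside the window
      unfold orb
      refine Finset.prod_congr rfl fun j _ => ?_
      have hδ0 : 0 ≤ v - n := by linarith
      have hδ1 : v - n < 2 * ε := by linarith
      have hj1 : ((j : ℕ) : ℝ) + 1 ≤ m := by exact_mod_cast j.2
      have hj0 : (0 : ℝ) ≤ ((j : ℕ) : ℝ) + 1 := by positivity
      have hfl : ⌊rep s + ((j : ℕ) + 1 : ℝ) * v⌋ = ((((j : ℕ) + 1) * n : ℕ) : ℤ) := by
        rw [Int.floor_eq_iff]
        push_cast
        have h5 : (((j : ℕ) : ℝ) + 1) * (v - n) ≤ m * (2 * ε) :=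
          mul_le_mul hj1 hδ1.le hδ0 (by linarith)
        have h6 : 0 ≤ (((j : ℕ) : ℝ) + 1) * (v - n) := mul_nonneg hj0 hδ0
        constructor
        · nlinarith
        · nlinarith
      simp only [F, sus]
      rw [hfl, zpow_natCast, Equiv.Perm.coe_pow]
      by_cases hj : (j : ℕ) = 0
      · have hwin : w (s + ((((j : ℕ) + 1 : ℝ) * v : ℝ) : 𝕋)) = 1 := by
          simp only [w]
          rw [if_pos]
          rw [rep_add, hj, Nat.cast_zero, zero_add, one_mul]
          have h7 : Int.fract (rep s + v) = rep s + v - n := by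
            rw [Int.fract_eq_iff]
            refine ⟨by linarith [hc.1], by linarith [hc.2], ⟨(n : ℤ), by push_cast; ring⟩⟩
          rw [h7]
          constructor <;> linarith [hc.1, hc.2]
        rw [if_pos hj, hwin, one_mul]
      · rw [if_neg hj, one_mul]
    · -- outside the window
      unfold orb
      refine Finset.prod_eq_zero (Finset.mem_univ (⟨0, hm⟩ : Fin m)) ?_
      simp only [F, sus, if_true]
      have hwin : w (s + ((((0 : ℕ) + 1 : ℝ) * v : ℝ) : 𝕋)) = 0 := by
        simp only [w]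
        rw [if_neg]
        rw [rep_add, Nat.cast_zero, zero_add, one_mul]
        intro h8
        apply hc
        rcases lt_or_ge (rep s + v) (n + 1) with h9 | h9
        · have h7 : Int.fract (rep s + v) = rep s + v - n := by
            rw [Int.fract_eq_iff]
            refine ⟨by linarith, by linarith, ⟨(n : ℤ), by push_cast; ring⟩⟩
          rw [h7] at h8
          constructor <;> linarith [h8.1, h8.2]
        · have h7 : Int.fract (rep s + v) = rep s + v - (n + 1) := by
            rw [Int.fract_eq_iff]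
            refine ⟨by linarith, by linarith, ⟨(n : ℤ) + 1, by push_cast; ring⟩⟩
          rw [h7] at h8
          linarith [h8.1]
      rw [hwin, zero_mul]
  -- the integrals
  have hint : ∀ n : ℕ, ∫ v in (n : ℝ)..((n + 1 : ℕ) : ℝ), orb (sus T) F (s, x) v = (ε : ℂ) * b n := by
    intro n
    have e1 : ∫ v in (n : ℝ)..((n + 1 : ℕ) : ℝ), orb (sus T) F (s, x) v =
        ∫ v in (n : ℝ)..((n + 1 : ℕ) : ℝ),
          (Set.Ico (n + ε - rep s) (n + 2 * ε - rep s)).indicator (fun _ => b n) v := by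
      apply intervalIntegral.integral_congr_ae
      have hne : ∀ᵐ t : ℝ, t ≠ ((n + 1 : ℕ) : ℝ) := by
        rw [ae_iff]
        simp
      filter_upwards [hne] with v hv hmem
      rw [Set.uIoc_of_le (by push_cast; linarith)] at hmem
      have hv1 : v < n + 1 := by
        refine lt_of_le_of_ne ?_ ?_
        · have := hmem.2
          push_cast at this
          exact this
        · push_cast at hv
          exact hv
      rw [horb n v hmem.1.le hv1]
      simp only [Set.indicator, Set.mem_Ico]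
    rw [e1, intervalIntegral.integral_of_le (by push_cast; linarith),
      integral_indicator measurableSet_Ico, Measure.restrict_restrict measurableSet_Ico]
    have e2 : Set.Ico ((n : ℝ) + ε - rep s) (n + 2 * ε - rep s) ∩ Set.Ioc (n : ℝ) ((n + 1 : ℕ) : ℝ) =
        Set.Ico ((n : ℝ) + ε - rep s) (n + 2 * ε - rep s) := by
      apply Set.inter_eq_left.2
      intro v hv
      push_cast
      exact ⟨by linarith [hv.1], by linarith [hv.2]⟩
    rw [e2, integral_const, measureReal_restrict_apply_univ, Real.volume_real_Ico_of_le (by linarith),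
      Complex.real_smul]
    have e3 : (n : ℝ) + 2 * ε - rep s - (n + ε - rep s) = ε := by ring
    rw [e3]
  have hFi : ∀ V W : ℝ, IntervalIntegrable (fun v => orb (sus T) F (s, x) v) volume V W := fun V W =>
    orb_ii (ν := (volume : Measure 𝕋).prod μ) (sus_flow hT hTm) hF (s, x) V W
  have hsum : ∀ N : ℕ, ∫ v in (0 : ℝ)..(N : ℝ), orb (sus T) F (s, x) v = (ε : ℂ) * ∑ n ∈ range N, b n := by
    intro N
    induction N with
    | zero => simp
    | succ N ih =>
      rw [← intervalIntegral.integral_add_adjacent_intervals (hFi 0 N) (hFi N _), ih, hint, sum_range_succ]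
      ring
  have hεc : (ε : ℂ) ≠ 0 := by exact_mod_cast hε0.ne'
  have h5 := (hL.comp tendsto_natCast_atTop_atTop).const_mul ((ε : ℂ)⁻¹)
  have h6 : Tendsto (fun N : ℕ => (1 / (N : ℂ)) * ∑ n ∈ range N, b n) atTop (𝓝 ((ε : ℂ)⁻¹ * L)) := by
    refine h5.congr fun N => ?_
    simp only [Function.comp_apply, Complex.ofReal_natCast]
    rw [hsum]
    field_simp
  have hf' := hf
  choose hfm CG hCG using hf'
  have hC : ∀ j x, ‖f j x‖ ≤ ∑ l, |CG l| := fun j x => ((hCG j x).trans (le_abs_self _)).trans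
    (Finset.single_le_sum (f := fun l => |CG l|) (fun _ _ => abs_nonneg _) (Finset.mem_univ j))
  refine ⟨_, shift_avg b (C := (∑ l, |CG l|) ^ m) (fun n => ?_) h6⟩
  rw [norm_prod]
  refine (Finset.prod_le_prod (fun _ _ => norm_nonneg _) fun j _ => hC j _).trans ?_
  rw [Finset.prod_const, Finset.card_univ, Fintype.card_fin]

end Pool.Agent.Q183.CF
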