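import Pool.Agent.Y957.MC.Maps
import Pool.Agent.Q183.CF.ZeroOne

/-!
Averages of a bounded family of sequences times one function at Beatty type times `⌊c p(n)⌋` (MP_9721b5_an).
-/

set_option autoImplicit false

namespace Pool.Agent.Q183.CF

open MeasureTheory Filter Finset Topology
open scoped ENNReal
open Pool.Agent.Y957.MC (Good bty_all)

universe u

variable {X : Type u} [MeasurableSpace X] {μ : Measure X} {m : ℕ}

theorem third_real [IsProbabilityMeasure μ] {S : X → X} (hS : MeasurePreserving S μ μ) {p : ℕ → ℝ} (hp : Good p)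
    (b : ℕ → X → ℂ) (hbm : ∀ n, Measurable (b n)) (hb : ∀ n x, ‖b n x‖ ≤ 1) {h : X → ℝ} (hh : Measurable h)
    (hhb : ∃ C, ∀ x, |h x| ≤ C) :
    ∀ᵐ a : ℝ, 0 < a → ∀ᵐ x ∂μ, Tendsto (fun N : ℕ => (1 / (N : ℂ)) * ∑ n ∈ Icc 1 N, b n x *
      (((h (S^[⌊a * p n⌋₊] x) - (μ[h | MeasurableSpace.invariants S]) x : ℝ)) : ℂ)) atTop (𝓝 0) := by
  have h1 : ∀ᵐ x ∂μ, ∀ᵐ a : ℝ ∂(volume.restrict (Set.Ioi (0 : ℝ))),
      Tendsto (fun N : ℕ => (1 / (N : ℂ)) * ∑ n ∈ Icc 1 N, b n x *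
      (((h (S^[⌊a * p n⌋₊] x) - (μ[h | MeasurableSpace.invariants S]) x : ℝ)) : ℂ)) atTop (𝓝 0) := by
    filter_upwards [bty_all p hp X μ S h hS hh hhb] with x hx
    exact hx (fun n => b n x) fun n => hb n x
  have hc : Measurable (μ[h | MeasurableSpace.invariants S]) :=
    (stronglyMeasurable_condExp.mono (MeasurableSpace.invariants_le S)).measurable
  have hj : Measurable fun q : X × ℕ => h (S^[q.2] q.1) :=
    measurable_from_prod_countable_left fun k => hh.comp (hS.iterate k).measurable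
  have hset : MeasurableSet {q : ℝ × X | Tendsto (fun N : ℕ => (1 / (N : ℂ)) * ∑ n ∈ Icc 1 N, b n q.2 *
      (((h (S^[⌊q.1 * p n⌋₊] q.2) - (μ[h | MeasurableSpace.invariants S]) q.2 : ℝ)) : ℂ)) atTop (𝓝 0)} := by
    refine measurableSet_tendsto (𝓝 (0 : ℂ)) fun N => ?_
    refine (Finset.measurable_fun_sum _ fun n _ => ?_).const_mul _
    refine ((hbm n).comp measurable_snd).mul (Complex.measurable_ofReal.comp (Measurable.sub ?_ (hc.comp measurable_snd)))
    exact hj.comp (measurable_snd.prodMk (Nat.measurable_floor.comp (measurable_fst.mul_const _)))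
  have h2 := (Measure.ae_ae_comm (μ := volume.restrict (Set.Ioi (0 : ℝ))) (ν := μ)
    (p := fun a x => Tendsto (fun N : ℕ => (1 / (N : ℂ)) * ∑ n ∈ Icc 1 N, b n x *
      (((h (S^[⌊a * p n⌋₊] x) - (μ[h | MeasurableSpace.invariants S]) x : ℝ)) : ℂ)) atTop (𝓝 0)) hset).2 h1
  rw [ae_restrict_iff' measurableSet_Ioi] at h2
  exact h2

/-- fixed times for the map `T`, one generic time for the map `S` -/
theorem third [IsProbabilityMeasure μ] {T S : X → X} (hT : MeasurePreserving T μ μ) (hS : MeasurePreserving S μ μ)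
    {p : ℕ → ℝ} (hp : Good p) {f : Fin m → X → ℂ} (hf : ∀ j, MemLp (f j) ∞ μ) {h : X → ℂ} (hh : MemLp h ∞ μ) :
    ∀ᵐ a : ℝ, 0 < a → ∀ᵐ x ∂μ, Tendsto (fun N : ℕ =>
      (1 / (N : ℂ)) * ∑ n ∈ Icc 1 N, (∏ j : Fin m, f j (T^[((j : ℕ) + 1) * n] x)) * h (S^[⌊a * p n⌋₊] x) -
      (μ[h | MeasurableSpace.invariants S]) x *
        ((1 / (N : ℂ)) * ∑ n ∈ Icc 1 N, ∏ j : Fin m, f j (T^[((j : ℕ) + 1) * n] x))) atTop (𝓝 0) := by
  choose g hg hfg using fun j => bme_of_memLp (hf j)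
  obtain ⟨k, ⟨hkm, Ck, hCk⟩, hhk⟩ := bme_of_memLp hh
  have hg' := hg
  choose hgm CG hCG using hg'
  set C : ℝ := ∑ l, |CG l| with hCdef
  have hC : ∀ j x, ‖g j x‖ ≤ C := fun j x => ((hCG j x).trans (le_abs_self _)).trans
    (Finset.single_le_sum (f := fun l => |CG l|) (fun _ _ => abs_nonneg _) (Finset.mem_univ j))
  set D : ℝ := C ^ m + 1 with hD
  have hC0 : 0 ≤ C := Finset.sum_nonneg fun _ _ => abs_nonneg _
  have hD0 : 0 < D := by positivity
  have hDc : (D : ℂ) ≠ 0 := by exact_mod_cast hD0.ne'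
  let b : ℕ → X → ℂ := fun n x => (D : ℂ)⁻¹ * ∏ j : Fin m, g j (T^[((j : ℕ) + 1) * n] x)
  have hbm : ∀ n, Measurable (b n) := fun n =>
    (Finset.measurable_fun_prod _ fun j _ => (hgm j).comp (hT.measurable.iterate _)).const_mul _
  have hb : ∀ n x, ‖b n x‖ ≤ 1 := by
    intro n x
    simp only [b]
    rw [norm_mul, norm_inv, Complex.norm_real, Real.norm_eq_abs, abs_of_pos hD0, inv_mul_le_iff₀ hD0, mul_one,
      norm_prod]
    refine (Finset.prod_le_prod (fun _ _ => norm_nonneg _) fun j _ => hC j _).trans ?_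
    rw [Finset.prod_const, Finset.card_univ, Fintype.card_fin]
    linarith
  have h1 := third_real hS hp b hbm hb (h := fun y => (k y).re) (Complex.measurable_re.comp hkm)
    ⟨Ck, fun x => (Complex.abs_re_le_norm _).trans (hCk x)⟩
  have h2 := third_real hS hp b hbm hb (h := fun y => (k y).im) (Complex.measurable_im.comp hkm)
    ⟨Ck, fun x => (Complex.abs_im_le_norm _).trans (hCk x)⟩
  have h3 : ∀ᵐ x ∂μ, ∀ n : ℕ, ∀ j, f j (T^[((j : ℕ) + 1) * n] x) = g j (T^[((j : ℕ) + 1) * n] x) := by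
    rw [ae_all_iff]
    intro n
    rw [ae_all_iff]
    intro j
    exact (hT.iterate _).quasiMeasurePreserving.ae (hfg j)
  have h4 : ∀ᵐ x ∂μ, ∀ n : ℕ, h (S^[n] x) = k (S^[n] x) := by
    rw [ae_all_iff]
    intro n
    exact (hS.iterate _).quasiMeasurePreserving.ae hhk
  have h5 : ∀ᵐ x ∂μ, (μ[h | MeasurableSpace.invariants S]) x = (μ[k | MeasurableSpace.invariants S]) x :=
    condExp_congr_ae hhk
  have hint : Integrable k μ := Integrable.of_bound hkm.aestronglyMeasurable Ck (ae_of_all _ hCk)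
  have h6 := Pool.Agent.Y957.MC.condExp_re_im (m := MeasurableSpace.invariants S) hint
  filter_upwards [h1, h2] with a ha1 ha2 ha0
  filter_upwards [ha1 ha0, ha2 ha0, h3, h4, h5, h6] with x hx1 hx2 hx3 hx4 hx5 hx6
  have h7 := (hx1.add (hx2.const_mul Complex.I)).const_mul (D : ℂ)
  rw [mul_zero, add_zero, mul_zero] at h7
  refine h7.congr fun N => ?_
  rw [hx5, hx6]
  simp only [hx3, hx4, b, Function.comp_apply]
  simp only [mul_add, Finset.mul_sum]
  rw [← Finset.sum_add_distrib, ← Finset.sum_sub_distrib]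
  refine Finset.sum_congr rfl fun n _ => ?_
  have e1 : k (S^[⌊a * p n⌋₊] x) = ((k (S^[⌊a * p n⌋₊] x)).re : ℂ) + ((k (S^[⌊a * p n⌋₊] x)).im : ℂ) * Complex.I :=
    (Complex.re_add_im _).symm
  have e2 : (D : ℂ) * (D : ℂ)⁻¹ = 1 := mul_inv_cancel₀ hDc
  generalize hP : (∏ j : Fin m, g j (T^[((j : ℕ) + 1) * n] x)) = P
  generalize hK : k (S^[⌊a * p n⌋₊] x) = κ at e1 ⊢
  simp only [Complex.ofReal_sub]
  generalize ((μ[fun y => (k y).re | MeasurableSpace.invariants S]) x : ℝ) = R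
  generalize ((μ[fun y => (k y).im | MeasurableSpace.invariants S]) x : ℝ) = J
  have e4 : (κ.re : ℂ) = κ - (κ.im : ℂ) * Complex.I := by linear_combination -e1
  rw [e4]
  linear_combination (1 / (N : ℂ)) * P * (κ - ((R : ℂ) + Complex.I * (J : ℂ))) * e2

end Pool.Agent.Q183.CF
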