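import Pool.Agent.Q183.CF.Flow
import Pool.Agent.W761.Tail.One

/-!
Cubic (and longer) averages of the time maps of a flow: from one time to almost all times (MP_9721b5_an).
-/

set_option autoImplicit false

namespace Pool.Agent.Q183.CF

open MeasureTheory Filter Finset Topology
open Pool.Agent.Y957.MC (IsFlow Bes bes_conv orb_prod_meas cont_of_disc)
open Pool.Agent.W761.Tail (A A_bound term Cvg Cvg_closed Cvg_congr)

universe u

variable {X : Type u} [MeasurableSpace X] {μ : Measure X} {τ : ℝ → X → X} {m : ℕ}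

/-- the product along the orbit -/
def orb (τ : ℝ → X → X) (f : Fin m → X → ℂ) (x : X) (v : ℝ) : ℂ :=
  ∏ j : Fin m, f j (τ (((j : ℕ) + 1 : ℝ) * v) x)

/-- convergence almost everywhere of the continuous averages -/
def CCvg (μ : Measure X) (τ : ℝ → X → X) (f : Fin m → X → ℂ) : Prop :=
  ∀ᵐ x ∂μ, ∃ L : ℂ, Tendsto (fun V : ℝ => (1 / (V : ℂ)) * ∫ v in (0 : ℝ)..V, orb τ f x v) atTop (𝓝 L)

theorem term_eq (hτ : IsFlow μ τ) (a : ℝ) (f : Fin m → X → ℂ) (n : ℕ) (x : X) :
    term (τ a) f n x = orb τ f x (a * ((n + 1 : ℕ) : ℝ)) := by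
  unfold term orb
  refine Finset.prod_congr rfl fun j _ => ?_
  rw [iter hτ]
  congr 2
  push_cast
  ring

theorem term_shift (hτ : IsFlow μ τ) (t s : ℝ) (f : Fin m → X → ℂ) (n : ℕ) (x : X) :
    term (τ t) (fun j x => f j (τ (((j : ℕ) + 1 : ℝ) * s) x)) n x = orb τ f x (s + t * (n + 1)) := by
  unfold term orb
  refine Finset.prod_congr rfl fun j _ => ?_
  simp only []
  rw [iter hτ, ← hτ.add]
  congr 2
  push_cast
  ring

theorem A_Icc (b : ℕ → ℂ) (N : ℕ) : A (fun n => b (n + 1)) N = (1 / (N : ℂ)) * ∑ n ∈ Icc 1 N, b n := by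
  rw [A, one_div]
  congr 1
  rw [Finset.range_eq_Ico, Finset.sum_Ico_add' (fun n => b n) 0 N 1, zero_add]
  rfl

theorem orb_meas (hτ : IsFlow μ τ) {f : Fin m → X → ℂ} (hf : ∀ j, Measurable (f j)) :
    Measurable fun p : ℝ × X => orb τ f p.2 p.1 :=
  orb_prod_meas (τ := fun (j : Fin m) t => τ (((j : ℕ) + 1 : ℝ) * t)) (fun j => scale hτ _) hf

theorem orb_bound {f : Fin m → X → ℂ} {C : ℝ} (hf : ∀ j x, ‖f j x‖ ≤ C) (x : X) (v : ℝ) :
    ‖orb τ f x v‖ ≤ C ^ m := by
  unfold orb
  rw [norm_prod]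
  refine (Finset.prod_le_prod (fun _ _ => norm_nonneg _) fun j _ => hf j _).trans ?_
  rw [Finset.prod_const, Finset.card_univ, Fintype.card_fin]

/-- one time: the continuous averages -/
theorem ccvg_of_one (hτ : IsFlow μ τ) [IsProbabilityMeasure μ] {t : ℝ} (ht : 0 < t) {f : Fin m → X → ℂ} {C : ℝ}
    (hf : ∀ j, Measurable (f j)) (hC : ∀ j x, ‖f j x‖ ≤ C)
    (hall : ∀ s : ℝ, Cvg μ (τ t) (fun j x => f j (τ (((j : ℕ) + 1 : ℝ) * s) x))) : CCvg μ τ f := by
  have hom := orb_meas hτ hf
  have hC0 : 0 ≤ C ^ m := by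
    obtain ⟨x⟩ : Nonempty X := by
      by_contra h
      rw [not_nonempty_iff] at h
      have h1 := measure_univ (μ := μ)
      rw [Measure.eq_zero_of_isEmpty μ] at h1
      simp at h1
    exact (norm_nonneg _).trans (orb_bound (τ := τ) hC x 0)
  have h1 : ∀ᵐ x ∂μ, ∀ᵐ s : ℝ, ∃ L, Tendsto (A fun n => orb τ f x (s + t * (n + 1))) atTop (𝓝 L) := by
    have hms : MeasurableSet {p : ℝ × X | ∃ L, Tendsto (fun N => A (fun n => orb τ f p.2 (p.1 + t * (n + 1))) N)
        atTop (𝓝 L)} := by
      apply measurableSet_exists_tendsto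
      intro N
      unfold A
      refine Measurable.const_mul (Finset.measurable_fun_sum _ fun n _ => ?_) _
      exact hom.comp ((measurable_fst.add_const _).prodMk measurable_snd)
    rw [← Measure.ae_ae_comm (μ := (volume : Measure ℝ)) (ν := μ)
      (p := fun s x => ∃ L, Tendsto (A fun n => orb τ f x (s + t * (n + 1))) atTop (𝓝 L)) hms]
    refine ae_of_all _ fun s => ?_
    filter_upwards [hall s] with x hx
    obtain ⟨L, hL⟩ := hx
    refine ⟨L, hL.congr fun N => ?_⟩
    congr 1
    funext n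
    exact term_shift hτ t s f n x
  filter_upwards [h1] with x hx
  -- the function on the line
  set F : ℝ → ℂ := orb τ f x with hF
  have hFm : Measurable F := hom.comp (measurable_id.prodMk measurable_const)
  have hFb : ∀ v, ‖F v‖ ≤ C ^ m := orb_bound hC x
  have hFi : ∀ V W : ℝ, IntervalIntegrable F volume V W := fun V W => by
    rw [intervalIntegrable_iff]
    exact Measure.integrableOn_of_bounded (M := C ^ m) (by simp) hFm.aestronglyMeasurable
      (ae_of_all _ fun r => hFb r)
  -- the limits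
  choose! ℓ hℓ using fun s (hs : ∃ L, Tendsto (A fun n => F (s + t * (n + 1))) atTop (𝓝 L)) => hs
  have h2 : Tendsto (fun N : ℕ => ∫ s in (0 : ℝ)..t, A (fun n => F (s + t * (n + 1))) N) atTop
      (𝓝 (∫ s in (0 : ℝ)..t, ℓ s)) := by
    refine intervalIntegral.tendsto_integral_filter_of_dominated_convergence (fun _ => C ^ m) ?_ ?_ ?_ ?_
    · refine Eventually.of_forall fun N => ?_
      apply Measurable.aestronglyMeasurable
      unfold A
      refine Measurable.const_mul (Finset.measurable_fun_sum _ fun n _ => ?_) _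
      exact hFm.comp (measurable_id.add_const _)
    · exact Eventually.of_forall fun N => ae_of_all _ fun s _ => A_bound (fun n => hFb _) N
    · exact intervalIntegrable_const
    · filter_upwards [hx] with s hs _
      exact hℓ s hs
  -- the blocks
  have h3 : ∀ N : ℕ, ∑ n ∈ range N, ∫ s in (0 : ℝ)..t, F (s + t * (n + 1)) = ∫ v in t..(t * N + t), F v := by
    intro N
    induction N with
    | zero => simp
    | succ N ih =>
      rw [sum_range_succ, ih, intervalIntegral.integral_comp_add_right (fun v => F v)]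
      have e1 : (0 : ℝ) + t * ((N : ℝ) + 1) = t * N + t := by ring
      have e2 : t + t * ((N : ℝ) + 1) = t * ((N + 1 : ℕ) : ℝ) + t := by push_cast; ring
      rw [e1, e2]
      exact intervalIntegral.integral_add_adjacent_intervals (hFi _ _) (hFi _ _)
  have h4 : ∀ N : ℕ, ∫ s in (0 : ℝ)..t, A (fun n => F (s + t * (n + 1))) N =
      (1 / (N : ℂ)) * ∫ v in t..(t * N + t), F v := by
    intro N
    unfold A
    rw [intervalIntegral.integral_const_mul, one_div]
    congr 1
    rw [← h3, intervalIntegral.integral_finsetSum]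
    intro n _
    rw [intervalIntegrable_iff]
    exact Measure.integrableOn_of_bounded (M := C ^ m) (by simp)
      (hFm.comp (measurable_id.add_const _)).aestronglyMeasurable (ae_of_all _ fun r => hFb _)
  simp only [h4] at h2
  have h5 := h2.const_mul (1 / (t : ℂ))
  have htc : (t : ℂ) ≠ 0 := by exact_mod_cast ht.ne'
  refine ⟨_, cont_of_disc (a := t) ht hC0 (ae_of_all _ hFb) hFi (L := (1 / (t : ℂ)) * ∫ s in (0 : ℝ)..t, ℓ s) ?_⟩
  have h6 : Tendsto (fun N : ℕ => (1 / ((t * N : ℝ) : ℂ)) * (∫ v in (0 : ℝ)..(t * N), F v) -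
      (1 / (t : ℂ)) * ((1 / (N : ℂ)) * ∫ v in t..(t * N + t), F v)) atTop (𝓝 0) := by
    have h7 : Tendsto (fun N : ℕ => (2 * C ^ m) / (N : ℝ)) atTop (𝓝 0) :=
      tendsto_const_nhds.div_atTop tendsto_natCast_atTop_atTop
    refine squeeze_zero_norm' ?_ h7
    filter_upwards [eventually_gt_atTop 0] with N hN
    have hN0 : (0 : ℝ) < N := Nat.cast_pos.2 hN
    have hNc : (N : ℂ) ≠ 0 := Nat.cast_ne_zero.2 hN.ne'
    have e1 : (∫ v in (0 : ℝ)..(t * N), F v) = (∫ v in (0 : ℝ)..t, F v) + ((∫ v in t..(t * N + t), F v) -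
        ∫ v in (t * N)..(t * N + t), F v) := by
      have a1 := intervalIntegral.integral_add_adjacent_intervals (hFi 0 t) (hFi t (t * N + t))
      have a2 := intervalIntegral.integral_add_adjacent_intervals (hFi 0 (t * N)) (hFi (t * N) (t * N + t))
      rw [← add_sub_assoc, a1, ← a2]
      ring
    have e2 : (1 / ((t * N : ℝ) : ℂ)) * (∫ v in (0 : ℝ)..(t * N), F v) -
        (1 / (t : ℂ)) * ((1 / (N : ℂ)) * ∫ v in t..(t * N + t), F v) =
        (1 / ((t * N : ℝ) : ℂ)) * ((∫ v in (0 : ℝ)..t, F v) - ∫ v in (t * N)..(t * N + t), F v) := by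
      rw [e1]
      push_cast
      field_simp
      ring
    rw [e2, norm_mul, norm_div, norm_one, Complex.norm_real, Real.norm_of_nonneg (by positivity)]
    have b1 : ‖∫ v in (0 : ℝ)..t, F v‖ ≤ C ^ m * t := by
      have := intervalIntegral.norm_integral_le_of_norm_le_const (a := 0) (b := t) fun v _ => hFb v
      rwa [sub_zero, abs_of_pos ht] at this
    have b2 : ‖∫ v in (t * N)..(t * N + t), F v‖ ≤ C ^ m * t := by
      have := intervalIntegral.norm_integral_le_of_norm_le_const (a := t * N) (b := t * N + t) fun v _ => hFb v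
      rwa [add_sub_cancel_left, abs_of_pos ht] at this
    have b3 := norm_sub_le (∫ v in (0 : ℝ)..t, F v) (∫ v in (t * N)..(t * N + t), F v)
    calc 1 / (t * (N : ℝ)) * ‖(∫ v in (0 : ℝ)..t, F v) - ∫ v in (t * N)..(t * N + t), F v‖
        ≤ 1 / (t * (N : ℝ)) * (C ^ m * t + C ^ m * t) := by gcongr; linarith
      _ = (2 * C ^ m) / (N : ℝ) := by field_simp; ring
  have h8 := h6.add h5
  rw [zero_add] at h8
  refine h8.congr fun N => ?_
  simp only [sub_add_cancel]

end Pool.Agent.Q183.CF
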